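import Mathlib

/-!
# Coordinates in a Hilbert space

An abstract interface for the coordinates of a Hilbert space with respect to an orthonormal basis
indexed by `Γ`, with the coordinate projections `R S` onto the coordinates in `S`.
-/

open Set Filter Topology

namespace FarPt

universe u

/-- coordinates with respect to an orthonormal basis -/
structure CoordSys (Γ : Type u) (E : Type u) [NormedAddCommGroup E] [InnerProductSpace ℝ E] where
  /-- coordinate functionals -/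
  c : Γ → E →ₗ[ℝ] ℝ
  /-- basis vectors -/
  e : Γ → E
  /-- coordinate projections -/
  R : Set Γ → E →ₗ[ℝ] E
  c_R_mem : ∀ (S : Set Γ) (γ : Γ) (x : E), γ ∈ S → c γ (R S x) = c γ x
  c_R_notMem : ∀ (S : Set Γ) (γ : Γ) (x : E), γ ∉ S → c γ (R S x) = 0
  c_e_self : ∀ γ, c γ (e γ) = 1
  c_e_ne : ∀ γ γ', γ ≠ γ' → c γ (e γ') = 0
  hasSum_inner : ∀ x y : E, HasSum (fun γ => c γ x * c γ y) (inner ℝ x y)

namespace CoordSys

variable {Γ E : Type u} [NormedAddCommGroup E] [InnerProductSpace ℝ E] (K : CoordSys Γ E)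

lemma hasSum_sq (x : E) : HasSum (fun γ => (K.c γ x) ^ 2) (‖x‖ ^ 2) := by
  have h := K.hasSum_inner x x
  rw [real_inner_self_eq_norm_sq] at h
  simpa only [sq] using h

lemma summable_sq (x : E) : Summable (fun γ => (K.c γ x) ^ 2) := (K.hasSum_sq x).summable

lemma norm_sq_eq (x : E) : ‖x‖ ^ 2 = ∑' γ, (K.c γ x) ^ 2 := (K.hasSum_sq x).tsum_eq.symm

include K in
lemma ext {x y : E} (h : ∀ γ, K.c γ x = K.c γ y) : x = y := by
  have h1 := K.norm_sq_eq (x - y)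
  have h2 : ∀ γ, (K.c γ (x - y)) ^ 2 = 0 := by
    intro γ
    rw [map_sub, h γ, sub_self]
    norm_num
  rw [tsum_congr h2, tsum_zero] at h1
  have h3 : ‖x - y‖ = 0 := by
    have := pow_eq_zero_iff (n := 2) (by norm_num) |>.mp h1
    exact this
  exact sub_eq_zero.mp (norm_eq_zero.mp h3)

lemma norm_R_le_of_subset {S S' : Set Γ} (h : S ⊆ S') (x : E) : ‖K.R S x‖ ^ 2 ≤ ‖K.R S' x‖ ^ 2 := by
  rw [K.norm_sq_eq, K.norm_sq_eq]
  apply Summable.tsum_le_tsum _ (K.summable_sq _) (K.summable_sq _)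
  intro γ
  by_cases h1 : γ ∈ S
  · rw [K.c_R_mem S γ x h1, K.c_R_mem S' γ x (h h1)]
  · rw [K.c_R_notMem S γ x h1, zero_pow two_ne_zero]
    exact sq_nonneg _

lemma norm_sq_R_le (S : Set Γ) (x : E) : ‖K.R S x‖ ^ 2 ≤ ‖x‖ ^ 2 := by
  rw [K.norm_sq_eq, K.norm_sq_eq]
  apply Summable.tsum_le_tsum _ (K.summable_sq _) (K.summable_sq _)
  intro γ
  by_cases h1 : γ ∈ S
  · rw [K.c_R_mem S γ x h1]
  · rw [K.c_R_notMem S γ x h1, zero_pow two_ne_zero]
    exact sq_nonneg _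

lemma norm_R_le (S : Set Γ) (x : E) : ‖K.R S x‖ ≤ ‖x‖ :=
  le_of_sq_le_sq (K.norm_sq_R_le S x) (norm_nonneg _)

lemma R_R_of_subset {S S' : Set Γ} (h : S ⊆ S') (x : E) : K.R S (K.R S' x) = K.R S x := by
  apply K.ext
  intro γ
  by_cases h1 : γ ∈ S
  · rw [K.c_R_mem S γ _ h1, K.c_R_mem S' γ x (h h1), K.c_R_mem S γ _ h1]
  · rw [K.c_R_notMem S γ _ h1, K.c_R_notMem S γ _ h1]

lemma R_R_of_subset' {S S' : Set Γ} (h : S ⊆ S') (x : E) : K.R S' (K.R S x) = K.R S x := by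
  apply K.ext
  intro γ
  by_cases h1 : γ ∈ S'
  · rw [K.c_R_mem S' γ _ h1]
  · rw [K.c_R_notMem S' γ _ h1, K.c_R_notMem S γ _ (fun h2 => h1 (h h2))]

lemma R_eq_of_subset {S S' : Set Γ} (h : S ⊆ S') {x : E} (hx : K.R S x = x) : K.R S' x = x := by
  rw [← hx, K.R_R_of_subset' h]

lemma R_eq_self_iff (S : Set Γ) (x : E) : K.R S x = x ↔ ∀ γ, γ ∉ S → K.c γ x = 0 := by
  constructor
  · intro h γ hγ
    rw [← h]
    exact K.c_R_notMem S γ x hγ
  · intro h
    apply K.ext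
    intro γ
    by_cases h1 : γ ∈ S
    · exact K.c_R_mem S γ x h1
    · rw [K.c_R_notMem S γ x h1, h γ h1]

lemma inner_R (S : Set Γ) (x y : E) : inner ℝ (K.R S x) y = inner ℝ x (K.R S y) := by
  rw [← (K.hasSum_inner (K.R S x) y).tsum_eq, ← (K.hasSum_inner x (K.R S y)).tsum_eq]
  apply tsum_congr
  intro γ
  by_cases h1 : γ ∈ S
  · rw [K.c_R_mem S γ x h1, K.c_R_mem S γ y h1]
  · rw [K.c_R_notMem S γ x h1, K.c_R_notMem S γ y h1, zero_mul, mul_zero]

lemma inner_e (x : E) (γ : Γ) : inner ℝ x (K.e γ) = K.c γ x := by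
  rw [← (K.hasSum_inner x (K.e γ)).tsum_eq]
  rw [tsum_eq_single γ]
  · rw [K.c_e_self, mul_one]
  · intro γ' h
    rw [K.c_e_ne γ' γ h, mul_zero]

lemma norm_sq_e (γ : Γ) : ‖K.e γ‖ ^ 2 = 1 := by
  rw [← real_inner_self_eq_norm_sq, K.inner_e, K.c_e_self]

lemma norm_e (γ : Γ) : ‖K.e γ‖ = 1 := by
  have h := K.norm_sq_e γ
  have h0 := norm_nonneg (K.e γ)
  nlinarith

lemma R_e_mem {S : Set Γ} {γ : Γ} (h : γ ∈ S) : K.R S (K.e γ) = K.e γ := by
  rw [K.R_eq_self_iff]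
  intro γ' hγ'
  apply K.c_e_ne
  rintro rfl
  exact hγ' h

lemma R_e_notMem {S : Set Γ} {γ : Γ} (h : γ ∉ S) : K.R S (K.e γ) = 0 := by
  apply K.ext
  intro γ'
  rw [map_zero]
  by_cases h1 : γ' ∈ S
  · rw [K.c_R_mem S γ' _ h1]
    apply K.c_e_ne
    rintro rfl
    exact h h1
  · exact K.c_R_notMem S γ' _ h1

/-- norm of `q + t e_γ` when `q` has zero coordinate at `γ` -/
lemma norm_sq_add_smul_e {q : E} {γ : Γ} (h : K.c γ q = 0) (t : ℝ) :
    ‖q + t • K.e γ‖ ^ 2 = ‖q‖ ^ 2 + t ^ 2 := by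
  rw [norm_add_sq_real, inner_smul_right, K.inner_e, h, norm_smul, K.norm_e, Real.norm_eq_abs]
  rw [mul_one, sq_abs]
  ring

end CoordSys

/-- coordinate functional of `ℓ²(Γ)` -/
noncomputable def lpC {Γ : Type u} (γ : Γ) : lp (fun _ : Γ => ℝ) 2 →ₗ[ℝ] ℝ where
  toFun := fun x => x γ
  map_add' := fun _ _ => rfl
  map_smul' := fun _ _ => rfl

lemma lpC_apply {Γ : Type u} (γ : Γ) (x : lp (fun _ : Γ => ℝ) 2) : lpC γ x = x γ := rfl

open Classical in
lemma memlp_ite {Γ : Type u} (S : Set Γ) (x : lp (fun _ : Γ => ℝ) 2) :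
    Memℓp (fun γ => if γ ∈ S then x γ else (0 : ℝ)) 2 := by
  have h := lp.memℓp x
  rw [memℓp_gen_iff (by norm_num)] at h ⊢
  refine Summable.of_nonneg_of_le (fun γ => by positivity) (fun γ => ?_) h
  by_cases h1 : γ ∈ S
  · rw [if_pos h1]
  · rw [if_neg h1, norm_zero]
    rw [Real.zero_rpow (by norm_num)]
    positivity

open Classical in
/-- coordinate projection of `ℓ²(Γ)` -/
noncomputable def lpR {Γ : Type u} (S : Set Γ) :
    lp (fun _ : Γ => ℝ) 2 →ₗ[ℝ] lp (fun _ : Γ => ℝ) 2 where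
  toFun := fun x => ⟨fun γ => if γ ∈ S then x γ else (0 : ℝ), memlp_ite S x⟩
  map_add' := fun x y => by
    apply lp.ext
    funext γ
    show (if γ ∈ S then x γ + y γ else (0 : ℝ)) =
      (if γ ∈ S then x γ else (0 : ℝ)) + (if γ ∈ S then y γ else (0 : ℝ))
    by_cases h1 : γ ∈ S
    · rw [if_pos h1, if_pos h1, if_pos h1]
    · rw [if_neg h1, if_neg h1, if_neg h1, add_zero]
  map_smul' := fun r x => by
    apply lp.ext
    funext γ
    show (if γ ∈ S then r * x γ else (0 : ℝ)) = r * (if γ ∈ S then x γ else (0 : ℝ))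
    by_cases h1 : γ ∈ S
    · rw [if_pos h1, if_pos h1]
    · rw [if_neg h1, if_neg h1, mul_zero]

open Classical in
lemma lpR_apply {Γ : Type u} (S : Set Γ) (x : lp (fun _ : Γ => ℝ) 2) (γ : Γ) :
    lpR S x γ = if γ ∈ S then x γ else (0 : ℝ) := rfl

open Classical in
/-- the coordinates of `ℓ²(Γ)` -/
noncomputable def lpCoord (Γ : Type u) : CoordSys Γ (lp (fun _ : Γ => ℝ) 2) where
  c := lpC
  e := fun γ => lp.single 2 γ (1 : ℝ)
  R := lpR
  c_R_mem := fun S γ x h => by rw [lpC_apply, lpC_apply, lpR_apply, if_pos h]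
  c_R_notMem := fun S γ x h => by rw [lpC_apply, lpR_apply, if_neg h]
  c_e_self := fun γ => by rw [lpC_apply]; exact lp.single_apply_self (E := fun _ : Γ => ℝ) 2 γ (1 : ℝ)
  c_e_ne := fun γ γ' h => by rw [lpC_apply]; exact lp.single_apply_ne (E := fun _ : Γ => ℝ) 2 γ' (1 : ℝ) h
  hasSum_inner := fun x y => by
    have h := lp.hasSum_inner (𝕜 := ℝ) x y
    have h2 : (fun γ => lpC γ x * lpC γ y) = fun γ => inner ℝ (x γ) (y γ) := by
      funext γ
      rw [lpC_apply, lpC_apply]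
      show x γ * y γ = inner ℝ (x γ) (y γ)
      rw [real_inner_eq_re_inner]
      simp [mul_comm]
    rw [h2]
    exact h

end FarPt
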