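import Pool.Agent.H33.Far.Rec

/-!
# The set with unique farthest points
-/

open Set Filter Topology

set_option linter.unusedSectionVars false

namespace FarPt

universe u

/-- minimisation over closed convex bounded sets -/
lemma exists_min {E : Type u} [NormedAddCommGroup E] [InnerProductSpace ℝ E] [CompleteSpace E]
    {C : Set E} (hne : C.Nonempty) (hbd : ∀ x ∈ C, ‖x‖ ≤ 1) {g : E → ℝ}
    (hcl : ∀ c : ℝ, IsClosed {x | x ∈ C ∧ g x ≤ c}) (hcv : ∀ c : ℝ, Convex ℝ {x | x ∈ C ∧ g x ≤ c})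
    (hlow : BddBelow (g '' C)) : ∃ q ∈ C, ∀ x ∈ C, g q ≤ g x := by
  set m : ℝ := sInf (g '' C) with hm
  have hmle : ∀ x ∈ C, m ≤ g x := fun x hx => csInf_le hlow (mem_image_of_mem g hx)
  set D : ℕ → Set E := fun n => {x | x ∈ C ∧ g x ≤ m + 1 / ((n : ℝ) + 1)} with hD
  have hDne : ∀ n, (D n).Nonempty := by
    intro n
    have h1 : m < m + 1 / ((n : ℝ) + 1) := by
      have : (0 : ℝ) < 1 / ((n : ℝ) + 1) := by positivity
      linarith
    obtain ⟨_, ⟨x, hx, rfl⟩, hlt⟩ := exists_lt_of_csInf_lt (hne.image g) h1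
    exact ⟨x, hx, hlt.le⟩
  have hanti : ∀ n k, n ≤ k → D k ⊆ D n := by
    intro n k hnk x hx
    refine ⟨hx.1, hx.2.trans ?_⟩
    have : (n : ℝ) ≤ k := by exact_mod_cast hnk
    gcongr
  have hch : ∀ n, ∃ x ∈ D n, ∀ w ∈ D n, ‖x‖ ≤ ‖w‖ := by
    intro n
    obtain ⟨v, hv, heq⟩ := exists_norm_eq_iInf_of_complete_convex (hDne n)
      (hcl _).isComplete (hcv _) (0 : E)
    refine ⟨v, hv, ?_⟩
    intro w hw
    have h1 : ‖(0 : E) - v‖ ≤ ‖(0 : E) - w‖ := by
      rw [heq]
      have hb : BddBelow (range fun w : D n => ‖(0 : E) - w‖) :=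
        ⟨0, by rintro _ ⟨w, rfl⟩; exact norm_nonneg _⟩
      exact ciInf_le hb ⟨w, hw⟩
    simpa using h1
  choose x hxD hxmin using hch
  have hmono : ∀ n k, n ≤ k → ‖x n‖ ≤ ‖x k‖ := fun n k h => hxmin n _ (hanti n k h (hxD k))
  have hpar : ∀ n k, n ≤ k → ‖x n - x k‖ ^ 2 ≤ 2 * (‖x k‖ ^ 2 - ‖x n‖ ^ 2) := by
    intro n k h
    have h1 : (1 - (1 / 2 : ℝ)) • x n + (1 / 2 : ℝ) • x k ∈ D n :=
      hcv _ (hxD n) (hanti n k h (hxD k)) (by norm_num) (by norm_num) (by norm_num)
    have h2 := hxmin n _ h1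
    have h3 := norm_sq_comb (x n) (x k) (1 / 2)
    have h4 : ‖x n‖ ^ 2 ≤ ‖(1 - (1 / 2 : ℝ)) • x n + (1 / 2 : ℝ) • x k‖ ^ 2 :=
      pow_le_pow_left₀ (norm_nonneg _) h2 2
    rw [h3] at h4
    linarith
  have hbdx : ∀ n, ‖x n‖ ^ 2 ≤ 1 := by
    intro n
    have := hbd _ (hxD n).1
    have := norm_nonneg (x n)
    nlinarith
  have hmonosq : Monotone (fun n => ‖x n‖ ^ 2) := by
    intro n k h
    exact pow_le_pow_left₀ (norm_nonneg _) (hmono n k h) 2
  have hbdA : BddAbove (range fun n => ‖x n‖ ^ 2) := ⟨1, by rintro _ ⟨n, rfl⟩; exact hbdx n⟩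
  set L : ℝ := ⨆ n, ‖x n‖ ^ 2 with hL
  have htend : Tendsto (fun n => ‖x n‖ ^ 2) atTop (𝓝 L) := tendsto_atTop_ciSup hmonosq hbdA
  have hleL : ∀ n, ‖x n‖ ^ 2 ≤ L := fun n => le_ciSup hbdA n
  have hcauchy : CauchySeq x := by
    apply cauchySeq_of_le_tendsto_0' (fun n => Real.sqrt (2 * (L - ‖x n‖ ^ 2)))
    · intro n k h
      rw [dist_eq_norm]
      apply Real.le_sqrt_of_sq_le
      have := hpar n k h
      have := hleL k
      linarith
    · have h1 : Tendsto (fun n => 2 * (L - ‖x n‖ ^ 2)) atTop (𝓝 0) := by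
        have := (htend.const_sub L).const_mul 2
        simpa using this
      have h2 := (Real.continuous_sqrt.tendsto 0).comp h1
      rw [Real.sqrt_zero] at h2
      exact h2
  obtain ⟨q, hq⟩ := cauchySeq_tendsto_of_complete hcauchy
  have hqD : ∀ n, q ∈ D n := by
    intro n
    apply (hcl _).mem_of_tendsto hq
    filter_upwards [eventually_ge_atTop n] with k hk
    exact hanti n k hk (hxD k)
  refine ⟨q, (hqD 0).1, ?_⟩
  intro w hw
  refine le_trans ?_ (hmle w hw)
  have h1 : Tendsto (fun n : ℕ => m + 1 / ((n : ℝ) + 1)) atTop (𝓝 (m + 0)) :=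
    tendsto_one_div_add_atTop_nhds_zero_nat.const_add m
  rw [add_zero] at h1
  exact ge_of_tendsto' h1 (fun n => (hqD n).2)

section final

variable {I X E : Type u} [LinearOrder I] [WellFoundedLT I] [NormedAddCommGroup E]
  [InnerProductSpace ℝ E] {K : CoordSys (I × X) E} {pt : X → E} {lab : E → X}

lemma Pp_of_P {j : I} {x : E} (h : P K j x = x) : Pp K j x = x :=
  K.R_eq_of_subset (fun _ h => le_of_lt h) h

lemma P_of_Pp {i j : I} (hij : i < j) {x : E} (h : Pp K i x = x) : P K j x = x :=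
  K.R_eq_of_subset (fun _ h => lt_of_le_of_lt h hij) h

lemma bplus_of_P {j : I} {x : E} (hx : ‖x‖ < 2) (h : P K j x = x) :
    bplus K pt lab j x = Bst K pt lab j x := by
  unfold bplus
  rw [Pp_of_P h]
  exact stepf_of_P (hyp (ok_Iio j)) hx h

lemma bplus_mono' {i j : I} (hij : i ≤ j) {x : E} (hx : ‖x‖ < 2) :
    bplus K pt lab i x ≤ bplus K pt lab j x :=
  bplus_mono (S := univ) (fun _ _ _ _ => mem_univ _) (fun j _ => ok_Iio j) (mem_univ _) hij hx

lemma Bst_stab {i : I} {x : E} (hx : ‖x‖ < 2) (h : Pp K i x = x) (j : I) (hij : i < j) :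
    Bst K pt lab j x = bplus K pt lab i x := by
  induction j using WellFoundedLT.induction with
  | ind j ih =>
    rw [Bst_eq]
    apply le_antisymm
    · apply csSup_le (insert_nonempty _ _)
      rintro z (rfl | ⟨k, hk, rfl⟩)
      · exact bplus_lb (ok_Iio i) hx
      · rcases le_or_gt k i with h1 | h1
        · exact bplus_mono' h1 hx
        · rw [bplus_of_P hx (P_of_Pp h1 h), ih k hk h1]
    · exact (ok_Iio j).ge i hij x hx

variable (K pt lab) in
/-- the limit function -/
noncomputable def Bf : E → ℝ := BS K pt lab univ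

lemma Bf_stab {i : I} {x : E} (hx : ‖x‖ < 2) (h : Pp K i x = x) :
    Bf K pt lab x = bplus K pt lab i x := by
  unfold Bf
  apply le_antisymm
  · apply csSup_le (insert_nonempty _ _)
    rintro z (rfl | ⟨k, hk, rfl⟩)
    · exact bplus_lb (ok_Iio i) hx
    · rcases le_or_gt k i with h1 | h1
      · exact bplus_mono' h1 hx
      · rw [bplus_of_P hx (P_of_Pp h1 h), Bst_stab hx h k h1]
  · exact ok_univ.ge i (mem_univ _) x hx

lemma Bf_low {j : I} {x : E} (hx : ‖x‖ < 2) (h : P K j x = x) :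
    Bf K pt lab x = Bst K pt lab j x := by
  rw [Bf_stab hx (Pp_of_P h), bplus_of_P hx h]

lemma Bf_P_le (j : I) {x : E} (hx : ‖x‖ < 2) : Bf K pt lab (P K j x) ≤ Bf K pt lab x := by
  rw [Bf_low ((norm_P_le K j x).trans_lt hx) (P_P K j x), (hyp (ok_Iio j)).BP]
  exact (bplus_ge (ok_Iio j) hx).trans (ok_univ.ge j (mem_univ _) x hx)

lemma Bf_line {i : I} {b : X} (hb : b ∈ Ast K pt lab i) (s : ℝ)
    (hn : ‖pt b + s • K.e (i, b)‖ < 2) :
    Bf K pt lab (pt b + s • K.e (i, b)) =
      Bst K pt lab i (pt b) + (max (-s) 0) ^ 2 / (8 - ‖pt b + s • K.e (i, b)‖ ^ 2) := by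
  have hPp : Pp K i (pt b + s • K.e (i, b)) = pt b + s • K.e (i, b) := by
    rw [map_add, map_smul, Pp_e, Pp_of_P ((hyp (ok_Iio i)).ptP b hb)]
  rw [Bf_stab hn hPp]
  unfold bplus
  rw [hPp]
  exact stepf_line (hyp (ok_Iio i)) hb s hn

lemma norm_sq_line {i : I} {b : X} (hb : b ∈ Ast K pt lab i) (s : ℝ) :
    ‖pt b + s • K.e (i, b)‖ ^ 2 = ‖pt b‖ ^ 2 + s ^ 2 := by
  apply K.norm_sq_add_smul_e
  rw [← (hyp (ok_Iio i)).ptP b hb, P_c_not K i (γ := (i, b)) (lt_irrefl _)]

variable (K pt lab) in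
/-- the closed convex set -/
def Dset : Set E := {x | ‖x‖ < 2 ∧ Bf K pt lab x + ‖x‖ ^ 2 ≤ 0}

lemma norm_lt_of_sq {x : E} {r : ℝ} (hr : 0 < r) (h : ‖x‖ ^ 2 < r ^ 2) : ‖x‖ < r :=
  lt_of_pow_lt_pow_left₀ 2 hr.le h

lemma Bf_lb {x : E} (hx : ‖x‖ < 2) : -1 ≤ Bf K pt lab x := ok_univ.lb x hx

lemma Bf_ub {x : E} (hx : ‖x‖ < 2) : Bf K pt lab x ≤ -1 + ‖x‖ ^ 2 := by
  have h1 := (ok_univ (K := K) (pt := pt) (lab := lab)).ub x hx
  have h2 : ‖PS K (univ : Set I) x‖ ^ 2 ≤ ‖x‖ ^ 2 := K.norm_sq_R_le _ x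
  unfold Bf
  linarith

lemma norm_le_one_of_mem {x : E} (hx : x ∈ Dset K pt lab) : ‖x‖ ≤ 1 := by
  have h1 := Bf_lb (K := K) (pt := pt) (lab := lab) hx.1
  have h2 := hx.2
  have h3 : ‖x‖ ^ 2 ≤ 1 ^ 2 := by linarith
  exact le_of_sq_le_sq h3 (by norm_num)

lemma Bf_cvx : Cvx (Bf K pt lab) := ok_univ.cvx

lemma Bf_convexOn : ConvexOn ℝ (Metric.ball (0 : E) 2) (Bf K pt lab) := by
  refine ⟨convex_ball _ _, ?_⟩
  intro x hx y hy a b ha hb hab
  rw [mem_ball_zero_iff] at hx hy
  have h1 := Bf_cvx (K := K) (pt := pt) (lab := lab) x y hx hy b hb (by linarith)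
  have h2 : 1 - b = a := by linarith
  unfold gp at h1
  rw [h2] at h1
  rw [smul_eq_mul, smul_eq_mul]
  linarith

lemma Bf_continuousOn : ContinuousOn (Bf K pt lab) (Metric.closedBall (0 : E) 1) := by
  have h1 := (Bf_convexOn (K := K) (pt := pt) (lab := lab)).lipschitzOnWith_of_abs_le
    (ε := 1 / 2) (M := 3) (by norm_num) (by
      intro a ha
      rw [dist_zero_right] at ha
      have h2 := Bf_lb (K := K) (pt := pt) (lab := lab) ha
      have h3 := Bf_ub (K := K) (pt := pt) (lab := lab) ha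
      have h4 := sq_lt_four ha
      rw [abs_le]
      constructor <;> linarith)
  refine h1.continuousOn.mono ?_
  intro x hx
  rw [mem_closedBall_zero_iff] at hx
  rw [mem_ball_zero_iff]
  linarith

lemma Dset_convex : Convex ℝ (Dset K pt lab) := by
  intro x hx y hy a b ha hb hab
  have h2 : a = 1 - b := by linarith
  subst h2
  have h1 := Bf_cvx (K := K) (pt := pt) (lab := lab) x y hx.1 hy.1 b hb (by linarith)
  refine ⟨norm_comb_lt hx.1 hy.1 hb (by linarith), ?_⟩
  rw [norm_sq_comb]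
  unfold gp at h1
  have h3 : 0 ≤ b * (1 - b) * ‖x - y‖ ^ 2 := by positivity
  have h4 := mul_le_mul_of_nonneg_left hx.2 ha
  have h5 := mul_le_mul_of_nonneg_left hy.2 hb
  rw [mul_zero] at h4 h5
  linarith

lemma Dset_eq : Dset K pt lab =
    Metric.closedBall (0 : E) 1 ∩ (fun x => Bf K pt lab x + ‖x‖ ^ 2) ⁻¹' (Iic 0) := by
  ext x
  constructor
  · intro hx
    exact ⟨by rw [mem_closedBall_zero_iff]; exact norm_le_one_of_mem hx, hx.2⟩
  · rintro ⟨h1, h2⟩
    rw [mem_closedBall_zero_iff] at h1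
    exact ⟨by linarith, h2⟩

lemma Dset_isClosed : IsClosed (Dset K pt lab) := by
  rw [Dset_eq]
  apply ContinuousOn.preimage_isClosed_of_isClosed _ Metric.isClosed_closedBall isClosed_Iic
  exact Bf_continuousOn.add (by fun_prop)

lemma mem_Dset_of_small {x : E} (hx : ‖x‖ ^ 2 ≤ 1 / 2) : x ∈ Dset K pt lab := by
  have h0 : ‖x‖ < 2 := norm_lt_of_sq (by norm_num) (by linarith)
  refine ⟨h0, ?_⟩
  have := Bf_ub (K := K) (pt := pt) (lab := lab) h0
  linarith

lemma P_continuous (j : I) : Continuous (P K j) :=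
  AddMonoidHomClass.continuous_of_bound (P K j) 1 (fun x => by
    rw [one_mul]; exact norm_P_le K j x)

/-- the main existence statement -/
lemma exists_real [CompleteSpace E] (hpt : ∀ q, pt (lab q) = q) {j : I} {y : E}
    (hy : P K j y = y) :
    ∃ m : ℝ, (∀ x ∈ Dset K pt lab, m ≤ Bf K pt lab x + 2 * inner ℝ y x) ∧
      ∃ a ∈ Dset K pt lab, Bf K pt lab a + ‖a‖ ^ 2 = 0 ∧
        Bf K pt lab a + 2 * inner ℝ y a = m := by
  set g : E → ℝ := fun x => Bf K pt lab x + 2 * inner ℝ y x with hg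
  set C : Set E := Dset K pt lab ∩ {x | P K j x = x} with hC
  have hCcl : IsClosed C := Dset_isClosed.inter (isClosed_eq (P_continuous j) continuous_id)
  have hCcv : Convex ℝ C := by
    apply Dset_convex.inter
    intro u hu v hv a b ha hb hab
    show P K j (a • u + b • v) = a • u + b • v
    rw [map_add, map_smul, map_smul, show P K j u = u from hu, show P K j v = v from hv]
  have hgcont : ContinuousOn g (Metric.closedBall (0 : E) 1) :=
    Bf_continuousOn.add (by fun_prop)
  have hCball : C ⊆ Metric.closedBall (0 : E) 1 := fun x hx => by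
    rw [mem_closedBall_zero_iff]; exact norm_le_one_of_mem hx.1
  obtain ⟨q, hqC, hqmin⟩ : ∃ q ∈ C, ∀ x ∈ C, g q ≤ g x := by
    apply exists_min
    · refine ⟨0, mem_Dset_of_small (by simp), ?_⟩
      show P K j 0 = 0
      rw [map_zero]
    · intro x hx
      exact norm_le_one_of_mem hx.1
    · intro c
      have : {x | x ∈ C ∧ g x ≤ c} = C ∩ g ⁻¹' (Iic c) := rfl
      rw [this]
      exact (hgcont.mono hCball).preimage_isClosed_of_isClosed hCcl isClosed_Iic
    · intro c u hu v hv a b ha hb hab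
      refine ⟨hCcv hu.1 hv.1 ha hb hab, ?_⟩
      have h2 : a = 1 - b := by linarith
      subst h2
      have h1 := Bf_cvx (K := K) (pt := pt) (lab := lab) u v hu.1.1.1 hv.1.1.1 b hb
        (by linarith)
      have h3 := hu.2
      have h4 := hv.2
      have h5 := mul_le_mul_of_nonneg_left h3 ha
      have h6 := mul_le_mul_of_nonneg_left h4 hb
      show Bf K pt lab ((1 - b) • u + b • v) + 2 * inner ℝ y ((1 - b) • u + b • v) ≤ c
      unfold gp at h1
      rw [inner_add_right, inner_smul_right, inner_smul_right]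
      simp only [hg] at h5 h6
      linarith
    · refine ⟨-1 - 2 * ‖y‖, ?_⟩
      rintro _ ⟨x, hx, rfl⟩
      have h1 := Bf_lb (K := K) (pt := pt) (lab := lab) hx.1.1
      have h2 := norm_le_one_of_mem hx.1
      have h3 := abs_real_inner_le_norm y x
      have h4 := neg_abs_le (inner ℝ y x)
      have h5 : ‖y‖ * ‖x‖ ≤ ‖y‖ := mul_le_of_le_one_right (norm_nonneg _) h2
      show -1 - 2 * ‖y‖ ≤ Bf K pt lab x + 2 * inner ℝ y x
      linarith
  have hq2 : ‖q‖ < 2 := hqC.1.1
  have hPq : P K j q = q := hqC.2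
  refine ⟨g q, ?_, ?_⟩
  · intro x hx
    have hPx : ‖P K j x‖ < 2 := (norm_P_le K j x).trans_lt hx.1
    have h1 := Bf_P_le (K := K) (pt := pt) (lab := lab) j hx.1
    have h2 : ‖P K j x‖ ^ 2 ≤ ‖x‖ ^ 2 := K.norm_sq_R_le _ x
    have h3 : P K j x ∈ C := ⟨⟨hPx, by have := hx.2; linarith⟩, P_P K j x⟩
    have h4 := hqmin _ h3
    have h5 : inner ℝ y (P K j x) = inner ℝ y x := by
      have h6 : inner ℝ (P K j y) x = inner ℝ y (P K j x) := K.inner_R _ y x
      rw [← h6, hy]
    refine h4.trans ?_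
    simp only [hg]
    rw [h5]
    linarith
  · rcases eq_or_lt_of_le hqC.1.2 with hzero | hneg
    · exact ⟨q, hqC.1, hzero, rfl⟩
    · have hBq : Bf K pt lab q = Bst K pt lab j q := Bf_low hq2 hPq
      by_cases hA : lab q ∈ Ast K pt lab j
      · -- a new direction
        set T : ℝ := Real.sqrt (-(Bf K pt lab q + ‖q‖ ^ 2)) with hT
        have hT2 : T ^ 2 = -(Bf K pt lab q + ‖q‖ ^ 2) := Real.sq_sqrt (by linarith)
        have hT0 : 0 ≤ T := Real.sqrt_nonneg _
        have hns := norm_sq_line hA T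
        rw [hpt] at hns
        have hBlb := Bf_lb (K := K) (pt := pt) (lab := lab) hq2
        have hn2 : ‖q + T • K.e (j, lab q)‖ < 2 :=
          norm_lt_of_sq (by norm_num) (by rw [hns, hT2]; linarith)
        have hval := Bf_line hA T (by rw [hpt]; exact hn2)
        rw [hpt, max_eq_right (by linarith), zero_pow two_ne_zero, zero_div, add_zero,
          ← hBq] at hval
        have hreal : Bf K pt lab (q + T • K.e (j, lab q)) + ‖q + T • K.e (j, lab q)‖ ^ 2 = 0 := by
          rw [hval, hns, hT2]; ring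
        refine ⟨q + T • K.e (j, lab q), ⟨hn2, hreal.le⟩, hreal, ?_⟩
        have hin : inner ℝ y (K.e (j, lab q)) = 0 := by
          rw [K.inner_e, ← hy, P_c_not K j (γ := (j, lab q)) (lt_irrefl _)]
        rw [hval, inner_add_right, inner_smul_right, hin, mul_zero, add_zero]
      · -- on an old ray
        have hex : ∃ i, i < j ∧ ∃ b ∈ Ast K pt lab i, ∃ t : ℝ, 0 ≤ t ∧
            q = pt b + t • K.e (i, b) := by
          by_contra hcon
          push Not at hcon
          apply hA
          rw [mem_Ast, hpt]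
          refine ⟨rfl, hPq, hq2, by rw [← hBq]; exact hneg, ?_⟩
          intro i hi a' ha' t ht
          exact hcon i hi a' ha' t ht
        obtain ⟨i, hij, b, hb, t, ht, hqt⟩ := hex
        obtain ⟨_, hbP, hb2, hbneg, _⟩ := (mem_Ast K pt lab i b).mp hb
        set β : ℝ := Bst K pt lab i (pt b) with hβ
        have hβlb : -1 ≤ β := (hyp (ok_Iio i)).lb _ hb2
        set T : ℝ := Real.sqrt (-(β + ‖pt b‖ ^ 2)) with hT
        have hT2 : T ^ 2 = -(β + ‖pt b‖ ^ 2) := Real.sq_sqrt (by linarith)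
        have hTpos : 0 < T := Real.sqrt_pos.mpr (by linarith)
        set c : ℝ := inner ℝ y (K.e (i, b)) with hc
        have hns : ∀ s : ℝ, ‖pt b + s • K.e (i, b)‖ ^ 2 = ‖pt b‖ ^ 2 + s ^ 2 :=
          fun s => norm_sq_line hb s
        have hn2 : ∀ s : ℝ, s ^ 2 ≤ T ^ 2 → ‖pt b + s • K.e (i, b)‖ < 2 := by
          intro s hs
          apply norm_lt_of_sq (by norm_num)
          rw [hns]
          linarith
        have hPj : ∀ s : ℝ, P K j (pt b + s • K.e (i, b)) = pt b + s • K.e (i, b) := by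
          intro s
          apply P_of_Pp hij
          rw [map_add, map_smul, Pp_e, Pp_of_P hbP]
        have hvalpos : ∀ s : ℝ, 0 ≤ s → s ^ 2 ≤ T ^ 2 →
            Bf K pt lab (pt b + s • K.e (i, b)) = β := by
          intro s hs0 hs
          rw [Bf_line hb s (hn2 s hs), max_eq_right (by linarith), zero_pow two_ne_zero,
            zero_div, add_zero]
        have hgval : ∀ s : ℝ, g (pt b + s • K.e (i, b)) =
            Bf K pt lab (pt b + s • K.e (i, b)) + 2 * inner ℝ y (pt b) + 2 * s * c := by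
          intro s
          simp only [hg]
          rw [inner_add_right, inner_smul_right]
          ring
        have hmemC : ∀ s : ℝ, 0 ≤ s → s ^ 2 ≤ T ^ 2 → pt b + s • K.e (i, b) ∈ C := by
          intro s hs0 hs
          refine ⟨⟨hn2 s hs, ?_⟩, hPj s⟩
          rw [hvalpos s hs0 hs, hns]
          linarith
        -- `t < T`
        have htT2 : t ^ 2 < T ^ 2 := by
          have h1 := hneg
          have h2 : t ^ 2 ≤ T ^ 2 := by
            by_contra hcon
            push Not at hcon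
            have h3 := Bf_line hb t (by rw [← hqt]; exact hq2)
            rw [max_eq_right (by linarith), zero_pow two_ne_zero, zero_div, add_zero,
              ← hqt] at h3
            rw [h3, hqt, hns] at h1
            linarith
          rw [hqt, hvalpos t ht h2, hns] at h1
          linarith
        have htT : t < T := lt_of_pow_lt_pow_left₀ 2 hTpos.le htT2
        have hgq : g q = β + 2 * inner ℝ y (pt b) + 2 * t * c := by
          rw [hqt, hgval, hvalpos t ht htT2.le]
        -- `c = 0`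
        have hcge : 0 ≤ c := by
          have h1 := hqmin _ (hmemC T hTpos.le le_rfl)
          rw [hgval, hvalpos T hTpos.le le_rfl, hgq] at h1
          have h2 : 0 ≤ (T - t) * c := by linarith
          exact nonneg_of_mul_nonneg_right h2 (by linarith)
        have hcle : c ≤ 0 := by
          rcases eq_or_lt_of_le ht with ht0 | htpos
          · -- move in the negative direction
            by_contra hcon
            push Not at hcon
            set δ : ℝ := min (T / 2) c with hδ
            have hδ0 : 0 < δ := lt_min (by linarith) hcon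
            have hδT : δ ≤ T / 2 := min_le_left _ _
            have hδc : δ ≤ c := min_le_right _ _
            have hδ2 : δ ^ 2 ≤ T ^ 2 / 4 := by
              have : δ ^ 2 ≤ (T / 2) ^ 2 := pow_le_pow_left₀ hδ0.le hδT 2
              linarith
            have hs2 : (-δ) ^ 2 ≤ T ^ 2 := by
              rw [neg_sq]
              have := sq_nonneg T
              linarith
            have hval := Bf_line hb (-δ) (hn2 (-δ) hs2)
            rw [neg_neg, max_eq_left hδ0.le] at hval
            have hden : (4 : ℝ) ≤ 8 - ‖pt b + (-δ) • K.e (i, b)‖ ^ 2 := (den_pos (hn2 _ hs2)).le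
            have hquot : δ ^ 2 / (8 - ‖pt b + (-δ) • K.e (i, b)‖ ^ 2) ≤ δ ^ 2 / 4 :=
              div_le_div_of_nonneg_left (sq_nonneg _) (by norm_num) hden
            have hmem : pt b + (-δ) • K.e (i, b) ∈ C := by
              refine ⟨⟨hn2 _ hs2, ?_⟩, hPj _⟩
              have e1 := hns (-δ)
              rw [neg_sq] at e1
              have := sq_nonneg T
              linarith
            have h1 := hqmin _ hmem
            rw [hgval, hval, hgq, ← ht0] at h1
            have h2 : 2 * δ * c ≤ δ ^ 2 / 4 := by linarith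
            have h3 : δ ^ 2 ≤ δ * c := by nlinarith
            nlinarith
          · have h1 := hqmin _ (hmemC 0 le_rfl (by have := sq_nonneg T; linarith))
            rw [hgval, hvalpos 0 le_rfl (by have := sq_nonneg T; linarith), hgq] at h1
            have h2 : t * c ≤ 0 := by linarith
            by_contra hcon
            push Not at hcon
            have := mul_pos htpos hcon
            linarith
        have hc0 : c = 0 := le_antisymm hcle hcge
        have hmemT := hmemC T hTpos.le le_rfl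
        refine ⟨pt b + T • K.e (i, b), hmemT.1, ?_, ?_⟩
        · rw [hvalpos T hTpos.le le_rfl, hns, hT2]
          ring
        · have h1 := hgval T
          rw [hvalpos T hTpos.le le_rfl, hc0] at h1
          rw [hgq, hc0]
          simp only [hg] at h1
          linarith

/-- uniqueness -/
lemma real_unique {y a a' : E} {m : ℝ}
    (hm : ∀ x ∈ Dset K pt lab, m ≤ Bf K pt lab x + 2 * inner ℝ y x)
    (ha : a ∈ Dset K pt lab) (ha' : a' ∈ Dset K pt lab)
    (har : Bf K pt lab a + ‖a‖ ^ 2 = 0) (har' : Bf K pt lab a' + ‖a'‖ ^ 2 = 0)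
    (ham : Bf K pt lab a + 2 * inner ℝ y a = m) (ham' : Bf K pt lab a' + 2 * inner ℝ y a' = m) :
    a = a' := by
  by_contra hne
  have hfl : Flat (Bf K pt lab) a a' := by
    intro t h0 h1
    have h2 := Bf_cvx (K := K) (pt := pt) (lab := lab) a a' ha.1 ha'.1 t h0 h1
    apply le_antisymm _ h2
    have h3 : (1 - t) • a + t • a' ∈ Dset K pt lab :=
      Dset_convex ha ha' (by linarith) h0 (by ring)
    have h4 := hm _ h3
    rw [inner_add_right, inner_smul_right, inner_smul_right] at h4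
    unfold gp
    have h5 : (1 - t) * (Bf K pt lab a + 2 * inner ℝ y a) +
        t * (Bf K pt lab a' + 2 * inner ℝ y a') = m := by rw [ham, ham']; ring
    linarith
  have hPS : ∀ x : E, PS K (univ : Set I) x = x := by
    intro x
    apply K.ext
    intro γ
    exact K.c_R_mem _ _ _ (mem_univ _)
  obtain ⟨j, _, b, hb, s, t, hs, ht, h1, h2⟩ :=
    ok_univ.flat a a' (hPS a) (hPS a') ha.1 ha'.1 hne hfl
  have hn1 := norm_sq_line hb s
  have hn2 := norm_sq_line hb t
  rw [← h1] at hn1
  rw [← h2] at hn2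
  have hv1 := Bf_line hb s (by rw [← h1]; exact ha.1)
  have hv2 := Bf_line hb t (by rw [← h2]; exact ha'.1)
  rw [max_eq_right (by linarith), zero_pow two_ne_zero, zero_div, add_zero, ← h1] at hv1
  rw [max_eq_right (by linarith), zero_pow two_ne_zero, zero_div, add_zero, ← h2] at hv2
  have hst : s ^ 2 = t ^ 2 := by
    rw [hv1, hn1] at har
    rw [hv2, hn2] at har'
    linarith
  have hst' : s = t := by
    have := abs_eq_abs.mpr (sq_eq_sq_iff_eq_or_eq_neg.mp hst)
    rwa [abs_of_nonneg hs, abs_of_nonneg ht] at this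
  apply hne
  rw [h1, h2, hst']

/-- every point has exactly one farthest point in the set -/
theorem unique_farthest [CompleteSpace E] [Nonempty I] (hpt : ∀ q, pt (lab q) = q)
    (hcof : ∀ S : Set I, S.Countable → ∃ j, ∀ i ∈ S, i < j) (y : E) :
    ∃! a : E, a ∈ Dset K pt lab ∧ ∀ b ∈ Dset K pt lab, dist y b ≤ dist y a := by
  -- level of `y`
  have hcount : (((fun γ : I × X => γ.1) '' (Function.support fun γ => (K.c γ y) ^ 2))).Countable :=
    (K.summable_sq y).countable_support.image _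
  obtain ⟨j, hj⟩ := hcof _ hcount
  have hy : P K j y = y := by
    rw [show P K j = K.R {γ | γ.1 < j} from rfl, K.R_eq_self_iff]
    intro γ hγ
    by_contra hne
    exact hγ (hj γ.1 ⟨γ, by simpa [Function.mem_support] using hne, rfl⟩)
  obtain ⟨m, hm, a, ha, har, ham⟩ := exists_real (K := K) (pt := pt) (lab := lab) hpt hy
  have hdist : ∀ x : E, dist y x ^ 2 = ‖y‖ ^ 2 - 2 * inner ℝ y x + ‖x‖ ^ 2 := by
    intro x
    rw [dist_eq_norm, norm_sub_sq_real]
  have hle : ∀ x ∈ Dset K pt lab, dist y x ^ 2 ≤ ‖y‖ ^ 2 - m := by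
    intro x hx
    rw [hdist]
    have h1 := hm x hx
    have h2 := hx.2
    linarith
  have haeq : dist y a ^ 2 = ‖y‖ ^ 2 - m := by
    rw [hdist]; linarith
  refine ⟨a, ⟨ha, ?_⟩, ?_⟩
  · intro b hb
    have h1 := hle b hb
    rw [← haeq] at h1
    exact le_of_sq_le_sq h1 dist_nonneg
  · rintro a' ⟨ha', hmax⟩
    have h1 : dist y a ≤ dist y a' := hmax a ha
    have h2 : dist y a ^ 2 ≤ dist y a' ^ 2 := pow_le_pow_left₀ dist_nonneg h1 2
    have h3 := hle a' ha'
    have h4 : dist y a' ^ 2 = ‖y‖ ^ 2 - m := by linarith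
    rw [hdist] at h4
    have h5 := hm a' ha'
    have h6 := ha'.2
    exact real_unique hm ha' ha (by linarith) har (by linarith) ham

end final

end FarPt
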