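import Pool.Agent.H33.Far.Basic

/-!
# Convexity gaps and perspectives
-/

open Set Filter Topology

namespace FarPt

universe u

variable {E : Type u} [NormedAddCommGroup E] [InnerProductSpace ℝ E]

/-- convexity gap -/
def gp (f : E → ℝ) (t : ℝ) (x y : E) : ℝ :=
  (1 - t) * f x + t * f y - f ((1 - t) • x + t • y)

/-- convex on the ball of radius 2 -/
def Cvx (f : E → ℝ) : Prop :=
  ∀ x y : E, ‖x‖ < 2 → ‖y‖ < 2 → ∀ t : ℝ, 0 ≤ t → t ≤ 1 → 0 ≤ gp f t x y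

/-- affine on a segment -/
def Flat (f : E → ℝ) (x y : E) : Prop := ∀ t : ℝ, 0 ≤ t → t ≤ 1 → gp f t x y = 0

lemma norm_comb_lt {x y : E} {t : ℝ} (hx : ‖x‖ < 2) (hy : ‖y‖ < 2) (h0 : 0 ≤ t) (h1 : t ≤ 1) :
    ‖(1 - t) • x + t • y‖ < 2 := by
  have h2 : ‖(1 - t) • x + t • y‖ ≤ (1 - t) * ‖x‖ + t * ‖y‖ := by
    refine (norm_add_le _ _).trans ?_
    rw [norm_smul, norm_smul, Real.norm_eq_abs, Real.norm_eq_abs, abs_of_nonneg h0,
      abs_of_nonneg (by linarith)]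
  rcases eq_or_lt_of_le h0 with h | h
  · rw [← h] at h2 ⊢
    linarith
  · nlinarith

lemma norm_sq_comb (x y : E) (t : ℝ) :
    ‖(1 - t) • x + t • y‖ ^ 2 = (1 - t) * ‖x‖ ^ 2 + t * ‖y‖ ^ 2 - t * (1 - t) * ‖x - y‖ ^ 2 := by
  rw [norm_add_sq_real, norm_sub_sq_real, norm_smul, norm_smul, inner_smul_left, inner_smul_right,
    mul_pow, mul_pow, Real.norm_eq_abs, Real.norm_eq_abs, sq_abs, sq_abs]
  simp only [conj_trivial]
  ring

lemma gp_zero_left (f : E → ℝ) (x y : E) : gp f 0 x y = 0 := by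
  unfold gp; simp

lemma gp_one_left (f : E → ℝ) (x y : E) : gp f 1 x y = 0 := by
  unfold gp; simp

lemma flat_of_eq {f : E → ℝ} (hf : Cvx f) {x y : E} (hx : ‖x‖ < 2) (hy : ‖y‖ < 2) {s : ℝ}
    (h0 : 0 < s) (h1 : s < 1) (h : gp f s x y = 0) : Flat f x y := by
  intro t ht0 ht1
  have hge := hf x y hx hy t ht0 ht1
  have hz : ‖(1 - t) • x + t • y‖ < 2 := norm_comb_lt hx hy ht0 ht1
  have hzs : f ((1 - s) • x + s • y) = (1 - s) * f x + s * f y := by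
    unfold gp at h; linarith
  apply le_antisymm _ hge
  rcases le_total t s with hts | hst
  · -- `s` between `t` and `1`
    have hpos : 0 < 1 - t := by linarith
    set r : ℝ := (s - t) / (1 - t) with hr
    have hr0 : 0 ≤ r := div_nonneg (by linarith) hpos.le
    have hr1 : r ≤ 1 := by rw [hr, div_le_one hpos]; linarith
    have h2 := hf _ y hz hy r hr0 hr1
    have h3 : (1 - r) • ((1 - t) • x + t • y) + r • y = (1 - s) • x + s • y := by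
      have e1 : (1 - r) * (1 - t) = 1 - s := by rw [hr]; field_simp; ring
      have e2 : (1 - r) * t + r = s := by rw [hr]; field_simp; ring
      rw [smul_add, smul_smul, smul_smul, add_assoc, ← add_smul, e1, e2]
    unfold gp at h2 ⊢
    rw [h3, hzs] at h2
    have e1 : (1 - r) * (1 - t) = 1 - s := by rw [hr]; field_simp; ring
    have e2 : (1 - r) * t + r = s := by rw [hr]; field_simp; ring
    have hr1' : 0 < 1 - r := by
      by_contra hcon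
      push Not at hcon
      have h7 : (1 - r) * (1 - t) ≤ 0 := mul_nonpos_of_nonpos_of_nonneg hcon hpos.le
      linarith
    have h4 : (1 - s) * f x + s * f y = (1 - r) * ((1 - t) * f x + t * f y) + r * f y := by
      rw [← e1, ← e2]; ring
    rw [h4] at h2
    have h5 : 0 ≤ (1 - r) * (f ((1 - t) • x + t • y) - ((1 - t) * f x + t * f y)) := by
      linarith
    have h6 := nonneg_of_mul_nonneg_right h5 hr1'
    linarith
  · -- `s` between `0` and `t`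
    have hpos : 0 < t := by linarith
    set r : ℝ := s / t with hr
    have hr0 : 0 < r := div_pos h0 hpos
    have hr1 : r ≤ 1 := by rw [hr, div_le_one hpos]; linarith
    have h2 := hf x _ hx hz r hr0.le hr1
    have e1 : (1 - r) + r * (1 - t) = 1 - s := by rw [hr]; field_simp; ring
    have e2 : r * t = s := by rw [hr]; field_simp
    have h3 : (1 - r) • x + r • ((1 - t) • x + t • y) = (1 - s) • x + s • y := by
      rw [smul_add, smul_smul, smul_smul, ← add_assoc, ← add_smul, e1, e2]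
    unfold gp at h2 ⊢
    rw [h3, hzs] at h2
    have h4 : (1 - s) * f x + s * f y = (1 - r) * f x + r * ((1 - t) * f x + t * f y) := by
      rw [← e1, ← e2]; ring
    rw [h4] at h2
    have h5 : 0 ≤ r * (f ((1 - t) • x + t • y) - ((1 - t) * f x + t * f y)) := by
      linarith
    have h6 := nonneg_of_mul_nonneg_right h5 hr0
    linarith

/-- perspective -/
noncomputable def ps (B : E → ℝ) (N : ℝ) (v : E) : ℝ := N * B (N⁻¹ • v)

lemma ps_one (B : E → ℝ) (v : E) : ps B 1 v = B v := by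
  unfold ps; simp

lemma ps_smul (B : E → ℝ) {c N : ℝ} (hc : c ≠ 0) (v : E) :
    ps B (c * N) (c • v) = c * ps B N v := by
  unfold ps
  rw [smul_smul, mul_inv, mul_assoc]
  have : c⁻¹ * N⁻¹ * c = N⁻¹ := by field_simp
  rw [this]

lemma ps_sub {B : E → ℝ} (hB : Cvx B) {N₁ N₂ : ℝ} (h1 : 0 < N₁) (h2 : 0 < N₂) {v₁ v₂ : E}
    (hv1 : ‖N₁⁻¹ • v₁‖ < 2) (hv2 : ‖N₂⁻¹ • v₂‖ < 2) :
    ps B (N₁ + N₂) (v₁ + v₂) ≤ ps B N₁ v₁ + ps B N₂ v₂ ∧
    (ps B (N₁ + N₂) (v₁ + v₂) = ps B N₁ v₁ + ps B N₂ v₂ → Flat B (N₁⁻¹ • v₁) (N₂⁻¹ • v₂)) := by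
  have hN : 0 < N₁ + N₂ := by linarith
  set t : ℝ := N₂ / (N₁ + N₂) with ht
  have ht0 : 0 < t := div_pos h2 hN
  have ht1 : t < 1 := by rw [ht, div_lt_one hN]; linarith
  have e1 : (1 - t) = N₁ / (N₁ + N₂) := by rw [ht]; field_simp; ring
  have hpt : (1 - t) • (N₁⁻¹ • v₁) + t • (N₂⁻¹ • v₂) = (N₁ + N₂)⁻¹ • (v₁ + v₂) := by
    rw [smul_smul, smul_smul, smul_add, e1, ht]
    congr 2
    · field_simp
    · field_simp
  have h3 := hB _ _ hv1 hv2 t ht0.le ht1.le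
  have key : ps B N₁ v₁ + ps B N₂ v₂ - ps B (N₁ + N₂) (v₁ + v₂) =
      (N₁ + N₂) * gp B t (N₁⁻¹ • v₁) (N₂⁻¹ • v₂) := by
    unfold gp ps
    rw [hpt, e1, ht]
    field_simp
  constructor
  · have : 0 ≤ (N₁ + N₂) * gp B t (N₁⁻¹ • v₁) (N₂⁻¹ • v₂) := mul_nonneg hN.le h3
    linarith
  · intro heq
    have h4 : (N₁ + N₂) * gp B t (N₁⁻¹ • v₁) (N₂⁻¹ • v₂) = 0 := by linarith
    have h5 : gp B t (N₁⁻¹ • v₁) (N₂⁻¹ • v₂) = 0 := by
      rcases mul_eq_zero.mp h4 with h | h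
      · exact absurd h hN.ne'
      · exact h
    exact flat_of_eq hB hv1 hv2 ht0 ht1 h5

/-! ### scalar convexity of `u² / d` -/

lemma quot_conv {t u₁ u₂ d₁ d₂ : ℝ} (h0 : 0 ≤ t) (h1 : t ≤ 1) (hd1 : 0 < d₁) (hd2 : 0 < d₂) :
    ((1 - t) * u₁ + t * u₂) ^ 2 / ((1 - t) * d₁ + t * d₂) ≤
      (1 - t) * (u₁ ^ 2 / d₁) + t * (u₂ ^ 2 / d₂) := by
  have hd : 0 < (1 - t) * d₁ + t * d₂ := by
    rcases eq_or_lt_of_le h0 with h | h
    · rw [← h]; linarith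
    · nlinarith [mul_pos h hd2]
  rw [div_le_iff₀ hd]
  have key : ((1 - t) * (u₁ ^ 2 / d₁) + t * (u₂ ^ 2 / d₂)) * ((1 - t) * d₁ + t * d₂) -
      ((1 - t) * u₁ + t * u₂) ^ 2 = t * (1 - t) * ((u₁ * d₂ - u₂ * d₁) ^ 2 / (d₁ * d₂)) := by
    field_simp
    ring
  have : 0 ≤ t * (1 - t) * ((u₁ * d₂ - u₂ * d₁) ^ 2 / (d₁ * d₂)) := by
    apply mul_nonneg (mul_nonneg h0 (by linarith))
    positivity
  linarith

lemma quot_conv' {t u u₁ u₂ d d₁ d₂ : ℝ} (h0 : 0 ≤ t) (h1 : t ≤ 1) (hd1 : 0 < d₁) (hd2 : 0 < d₂)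
    (hu0 : 0 ≤ u) (hu : u ≤ (1 - t) * u₁ + t * u₂) (hd : (1 - t) * d₁ + t * d₂ ≤ d) :
    u ^ 2 / d ≤ (1 - t) * (u₁ ^ 2 / d₁) + t * (u₂ ^ 2 / d₂) := by
  have hd0 : 0 < (1 - t) * d₁ + t * d₂ := by
    rcases eq_or_lt_of_le h0 with h | h
    · rw [← h]; linarith
    · nlinarith [mul_pos h hd2]
  refine le_trans ?_ (quot_conv h0 h1 hd1 hd2)
  apply div_le_div₀ (sq_nonneg _) (pow_le_pow_left₀ hu0 hu 2) hd0 hd

lemma quot_conv_strict {t u u₁ u₂ d d₁ d₂ : ℝ} (h0 : 0 ≤ t) (h1 : t ≤ 1) (hd1 : 0 < d₁)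
    (hd2 : 0 < d₂) (hu0 : 0 < u) (hu : u ≤ (1 - t) * u₁ + t * u₂)
    (hd : (1 - t) * d₁ + t * d₂ < d) :
    u ^ 2 / d < (1 - t) * (u₁ ^ 2 / d₁) + t * (u₂ ^ 2 / d₂) := by
  have hd0 : 0 < (1 - t) * d₁ + t * d₂ := by
    rcases eq_or_lt_of_le h0 with h | h
    · rw [← h]; linarith
    · nlinarith [mul_pos h hd2]
  refine lt_of_lt_of_le ?_ (quot_conv h0 h1 hd1 hd2)
  have h2 : u ^ 2 / d < u ^ 2 / ((1 - t) * d₁ + t * d₂) :=
    div_lt_div_of_pos_left (by positivity) hd0 hd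
  refine h2.trans_le ?_
  gcongr

end FarPt
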