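import Pool.Agent.H33.Far.Final

/-!
# An instance of the construction

The index set is the first uncountable ordinal times the set of sequences in a set `Y` of
cardinality continuum.
-/

open Set Filter Topology

namespace FarPt

universe u

/-- the first uncountable ordinal as a type -/
abbrev IT : Type u := (Ordinal.omega.{u} 1).ToType

/-- letters -/
abbrev YT : Type u := IT.{u} ⊕ ULift.{u} ℝ

/-- labels -/
abbrev XT : Type u := ℕ → YT.{u}

/-- the Hilbert space -/
abbrev ET : Type u := lp (fun _ : IT.{u} × XT.{u} => ℝ) 2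

lemma omega_one_ne_zero : Ordinal.omega.{u} 1 ≠ 0 :=
  (Ordinal.omega_pos 1).ne'

instance : Nonempty IT.{u} := by
  rw [Ordinal.nonempty_toType_iff]
  exact omega_one_ne_zero

lemma hcof_IT (S : Set IT.{u}) (hS : S.Countable) : ∃ j, ∀ i ∈ S, i < j := by
  by_contra hcon
  push Not at hcon
  have hc : IsCofinal S := by
    intro a
    obtain ⟨i, hi, h⟩ := hcon a
    exact ⟨i, hi, h⟩
  have h1 := Order.cof_le hc
  rw [Ordinal.cof_toType, Cardinal.cof_omega_one] at h1
  have h2 : Cardinal.mk S ≤ Cardinal.aleph0 := Cardinal.le_aleph0_iff_set_countable.mpr hS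
  have h3 := h1.trans h2
  exact absurd h3 (not_le.mpr Cardinal.aleph0_lt_aleph_one)

/-- coding of one coordinate entry -/
def code1 (p : (IT.{u} × XT.{u}) × ℝ) : XT.{u} := fun n =>
  match n with
  | 0 => Sum.inl p.1.1
  | 1 => Sum.inr (ULift.up p.2)
  | (n + 2) => p.1.2 n

lemma code1_injective : Function.Injective code1.{u} := by
  rintro ⟨⟨i, f⟩, r⟩ ⟨⟨i', f'⟩, r'⟩ h
  have h0 := congrFun h 0
  have h1 := congrFun h 1
  have h2 : ∀ n, f n = f' n := fun n => congrFun h (n + 2)
  have h0' : i = i' := Sum.inl.inj h0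
  have h1' : r = r' := ULift.up.inj (Sum.inr.inj h1)
  have h2' : f = f' := funext h2
  subst h0' h1' h2'
  rfl

/-- coding of a sequence of labels -/
def code2 (F : ℕ → XT.{u}) : XT.{u} := fun n => F (Nat.unpair n).1 (Nat.unpair n).2

lemma code2_injective : Function.Injective code2.{u} := by
  intro F G h
  funext a b
  have := congrFun h (Nat.pair a b)
  simpa [code2, Nat.unpair_pair] using this

lemma exists_enum (x : ET.{u}) : ∃ s : ℕ → IT.{u} × XT.{u}, ∀ γ, x γ ≠ 0 → γ ∈ range s := by
  have hc : (Function.support fun γ => ((lpCoord (IT.{u} × XT.{u})).c γ x) ^ 2).Countable :=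
    ((lpCoord (IT.{u} × XT.{u})).summable_sq x).countable_support
  have : Nonempty (IT.{u} × XT.{u}) :=
    ⟨(Classical.arbitrary IT.{u}, fun _ => Sum.inr (ULift.up 0))⟩
  rcases (Function.support fun γ =>
    ((lpCoord (IT.{u} × XT.{u})).c γ x) ^ 2).eq_empty_or_nonempty with h0 | h0
  · refine ⟨fun _ => Classical.arbitrary _, ?_⟩
    intro γ hγ
    have : γ ∈ (Function.support fun γ => ((lpCoord (IT.{u} × XT.{u})).c γ x) ^ 2) := by
      rw [Function.mem_support]
      exact pow_ne_zero 2 hγ
    rw [h0] at this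
    exact absurd this (Set.notMem_empty γ)
  · obtain ⟨s, hs⟩ := hc.exists_eq_range h0
    refine ⟨s, ?_⟩
    intro γ hγ
    rw [← hs, Function.mem_support]
    exact pow_ne_zero 2 hγ

/-- an enumeration containing the support -/
noncomputable def enum (x : ET.{u}) : ℕ → IT.{u} × XT.{u} := (exists_enum x).choose

lemma enum_spec (x : ET.{u}) (γ : IT.{u} × XT.{u}) (h : x γ ≠ 0) : γ ∈ range (enum x) :=
  (exists_enum x).choose_spec γ h

/-- the label of a vector -/
noncomputable def labT (x : ET.{u}) : XT.{u} :=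
  code2 (fun n => code1 (enum x n, x (enum x n)))

lemma labT_injective : Function.Injective labT.{u} := by
  intro x y h
  have h1 := code2_injective h
  have h2 : ∀ n, (enum x n, x (enum x n)) = (enum y n, y (enum y n)) :=
    fun n => code1_injective (congrFun h1 n)
  have h3 : ∀ n, enum x n = enum y n := fun n => congrArg Prod.fst (h2 n)
  have h4 : ∀ n, x (enum x n) = y (enum y n) := fun n => congrArg Prod.snd (h2 n)
  apply lp.ext
  funext γ
  by_cases hx : γ ∈ range (enum x)
  · obtain ⟨n, rfl⟩ := hx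
    have := h4 n
    rw [← h3 n] at this
    exact this
  · have hy : γ ∉ range (enum y) := by
      rintro ⟨n, hn⟩
      exact hx ⟨n, by rw [h3 n, hn]⟩
    have h5 : x γ = 0 := by
      by_contra hne
      exact hx (enum_spec x γ hne)
    have h6 : y γ = 0 := by
      by_contra hne
      exact hy (enum_spec y γ hne)
    rw [h5, h6]

/-- decoding of labels -/
noncomputable def ptT : XT.{u} → ET.{u} := Function.invFun labT

lemma ptT_labT (q : ET.{u}) : ptT (labT q) = q :=
  Function.leftInverse_invFun labT_injective q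

/-- the set -/
noncomputable def AT : Set ET.{u} := Dset (lpCoord (IT.{u} × XT.{u})) ptT labT

theorem AT_isClosed : IsClosed AT.{u} := Dset_isClosed

theorem AT_convex : Convex ℝ AT.{u} := Dset_convex

theorem AT_unique (y : ET.{u}) :
    ∃! a : ET.{u}, a ∈ AT ∧ ∀ b ∈ AT, dist y b ≤ dist y a :=
  unique_farthest ptT_labT hcof_IT y

/-- the set contains a ball around the origin -/
theorem AT_ball {x : ET.{u}} (hx : ‖x‖ ^ 2 ≤ 1 / 2) : x ∈ AT := mem_Dset_of_small hx

theorem AT_not_singleton : ¬ ∃ x : ET.{u}, AT = {x} := by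
  rintro ⟨x, hx⟩
  have γ : IT.{u} × XT.{u} :=
    (Classical.arbitrary IT.{u}, fun _ => Sum.inr (ULift.up 0))
  have h0 : (0 : ET.{u}) ∈ AT := AT_ball (by simp)
  have h1 : ((1 / 2 : ℝ) • (lpCoord (IT.{u} × XT.{u})).e γ) ∈ AT := by
    apply AT_ball
    rw [norm_smul, mul_pow, (lpCoord (IT.{u} × XT.{u})).norm_sq_e, mul_one, Real.norm_eq_abs,
      sq_abs]
    norm_num
  rw [hx, mem_singleton_iff] at h0 h1
  rw [← h0] at h1
  have h2 : (lpCoord (IT.{u} × XT.{u})).e γ = 0 := by
    rcases smul_eq_zero.mp h1 with h | h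
    · norm_num at h
    · exact h
  have h3 := (lpCoord (IT.{u} × XT.{u})).norm_sq_e γ
  rw [h2, norm_zero] at h3
  norm_num at h3

end FarPt
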