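import Pool.Agent.H33.Far.Step3

/-!
# The transfinite recursion
-/

open Set Filter Topology

set_option linter.unusedSectionVars false

namespace FarPt

universe u

/-- state of the recursion -/
structure State (X E : Type u) where
  /-- the convex function -/
  B : E → ℝ
  /-- the set of used labels -/
  A : Set X

section recursion

variable {I X E : Type u} [LinearOrder I] [WellFoundedLT I] [NormedAddCommGroup E]
  [InnerProductSpace ℝ E] (K : CoordSys (I × X) E) (pt : X → E) (lab : E → X)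

/-- the function after the step at level `j` -/
noncomputable def plusOf (j : I) (s : State X E) (x : E) : ℝ := stepf K pt s.B s.A j (Pp K j x)

/-- one step of the recursion -/
noncomputable def recF (i : I) (ih : ∀ j, j < i → State X E) : State X E where
  B := fun x => sSup (insert (-1) {z | ∃ j, ∃ h : j < i, z = plusOf K pt j (ih j h) x})
  A := {a | lab (pt a) = a ∧ P K i (pt a) = pt a ∧ ‖pt a‖ < 2 ∧
    sSup (insert (-1) {z | ∃ j, ∃ h : j < i, z = plusOf K pt j (ih j h) (pt a)}) +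
      ‖pt a‖ ^ 2 < 0 ∧
    ∀ j, ∀ h : j < i, ∀ a' ∈ (ih j h).A, ∀ t : ℝ, 0 ≤ t → pt a ≠ pt a' + t • K.e (j, a')}

/-- the states -/
noncomputable def state : I → State X E := IsWellFounded.fix (· < ·) (recF K pt lab)

lemma state_eq (i : I) : state K pt lab i = recF K pt lab i (fun j _ => state K pt lab j) :=
  IsWellFounded.fix_eq _ _ _

/-- the convex function at level `i` -/
noncomputable def Bst (i : I) : E → ℝ := (state K pt lab i).B

/-- the used labels at level `i` -/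
noncomputable def Ast (i : I) : Set X := (state K pt lab i).A

/-- the function after the step at level `j` -/
noncomputable def bplus (j : I) (x : E) : ℝ :=
  stepf K pt (Bst K pt lab j) (Ast K pt lab j) j (Pp K j x)

/-- supremum over a set of levels -/
noncomputable def BS (S : Set I) (x : E) : ℝ :=
  sSup (insert (-1) {z | ∃ j ∈ S, z = bplus K pt lab j x})

/-- projection on a set of levels -/
def PS (S : Set I) : E →ₗ[ℝ] E := K.R {γ | γ.1 ∈ S}

lemma PS_Iio (i : I) : PS K (Iio i) = P K i := rfl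

lemma Bst_eq (i : I) : Bst K pt lab i = BS K pt lab (Iio i) := by
  unfold Bst
  rw [state_eq]
  funext x
  have h1 : {z | ∃ j, ∃ _ : j < i, z = plusOf K pt j (state K pt lab j) x} =
      {z | ∃ j ∈ Iio i, z = bplus K pt lab j x} := by
    ext z
    constructor
    · rintro ⟨j, h, rfl⟩
      exact ⟨j, h, rfl⟩
    · rintro ⟨j, h, rfl⟩
      exact ⟨j, h, rfl⟩
  show sSup (insert (-1) {z | ∃ j, ∃ _ : j < i, z = plusOf K pt j (state K pt lab j) x}) =
    sSup (insert (-1) {z | ∃ j ∈ Iio i, z = bplus K pt lab j x})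
  rw [h1]

lemma mem_Ast (i : I) (a : X) : a ∈ Ast K pt lab i ↔
    lab (pt a) = a ∧ P K i (pt a) = pt a ∧ ‖pt a‖ < 2 ∧
    Bst K pt lab i (pt a) + ‖pt a‖ ^ 2 < 0 ∧
    ∀ j, j < i → ∀ a' ∈ Ast K pt lab j, ∀ t : ℝ, 0 ≤ t → pt a ≠ pt a' + t • K.e (j, a') := by
  have h1 : Ast K pt lab i = (recF K pt lab i (fun j _ => state K pt lab j)).A := by
    unfold Ast
    rw [state_eq]
  have h2 : Bst K pt lab i = (recF K pt lab i (fun j _ => state K pt lab j)).B := by
    unfold Bst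
    rw [state_eq]
  rw [h1, h2]
  rfl

/-- the facts proved by induction -/
structure OK (S : Set I) : Prop where
  cvx : Cvx (BS K pt lab S)
  lb : ∀ x : E, ‖x‖ < 2 → -1 ≤ BS K pt lab S x
  ub : ∀ x : E, ‖x‖ < 2 → BS K pt lab S x ≤ -1 + ‖PS K S x‖ ^ 2
  BP : ∀ x : E, BS K pt lab S (PS K S x) = BS K pt lab S x
  ge : ∀ j ∈ S, ∀ x : E, ‖x‖ < 2 → bplus K pt lab j x ≤ BS K pt lab S x
  gap : ∀ j ∈ S, ∀ x y : E, ‖x‖ < 2 → ‖y‖ < 2 → ∀ t : ℝ, 0 ≤ t → t ≤ 1 →
    gp (bplus K pt lab j) t x y * (16 - (‖PS K S x‖ ^ 2 + ‖PS K S y‖ ^ 2)) ≤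
      gp (BS K pt lab S) t x y * (16 - (‖Pp K j x‖ ^ 2 + ‖Pp K j y‖ ^ 2))
  flat : ∀ x y : E, PS K S x = x → PS K S y = y → ‖x‖ < 2 → ‖y‖ < 2 → x ≠ y →
    Flat (BS K pt lab S) x y → ∃ j ∈ S, ∃ a ∈ Ast K pt lab j, ∃ s t : ℝ, 0 ≤ s ∧ 0 ≤ t ∧
      x = pt a + s • K.e (j, a) ∧ y = pt a + t • K.e (j, a)

variable {K pt lab}

section plus

variable {j : I} (hj : OK K pt lab (Iio j))
include hj

lemma hyp : Hyp K pt (Bst K pt lab j) (Ast K pt lab j) j where
  BP := by rw [Bst_eq]; exact hj.BP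
  cvx := by rw [Bst_eq]; exact hj.cvx
  lb := by rw [Bst_eq]; exact hj.lb
  ub := by rw [Bst_eq]; exact hj.ub
  ptP := fun a ha => ((mem_Ast K pt lab j a).mp ha).2.1
  ptn := fun a ha => by
    obtain ⟨_, _, h3, h4, _⟩ := (mem_Ast K pt lab j a).mp ha
    have h5 := hj.lb (pt a) h3
    rw [← Bst_eq] at h5
    have h6 := norm_nonneg (pt a)
    nlinarith

lemma notFlat_pt : ∀ a ∈ Ast K pt lab j, ∀ u : E, P K j u = u → ‖u‖ < 2 → u ≠ pt a →
    ¬ Flat (Bst K pt lab j) u (pt a) := by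
  intro a ha u hu hun hne hfl
  obtain ⟨_, h2, h3, h4, h5⟩ := (mem_Ast K pt lab j a).mp ha
  rw [Bst_eq] at hfl
  obtain ⟨i, hi, a', ha', s, t, hs, ht, _, h7⟩ := hj.flat u (pt a) hu h2 hun h3 hne hfl
  exact h5 i hi a' ha' t ht h7

omit hj in
lemma pt_inj : ∀ a ∈ Ast K pt lab j, ∀ a' ∈ Ast K pt lab j, pt a = pt a' → a = a' := by
  intro a ha a' ha' h
  rw [← ((mem_Ast K pt lab j a).mp ha).1, h, ((mem_Ast K pt lab j a').mp ha').1]

omit hj in
lemma gp_bplus (t : ℝ) (x y : E) : gp (bplus K pt lab j) t x y =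
    gp (stepf K pt (Bst K pt lab j) (Ast K pt lab j) j) t (Pp K j x) (Pp K j y) := by
  unfold gp bplus
  rw [map_add, map_smul, map_smul]

omit hj in
lemma norm_Pp_lt {x : E} (hx : ‖x‖ < 2) : ‖Pp K j x‖ < 2 := (norm_Pp_le K j x).trans_lt hx

lemma bplus_cvx : Cvx (bplus K pt lab j) := by
  intro x y hx hy t h0 h1
  rw [gp_bplus]
  exact stepf_cvx (hyp hj) _ _ (norm_Pp_lt hx) (norm_Pp_lt hy) t h0 h1

lemma bplus_ge {x : E} (hx : ‖x‖ < 2) : Bst K pt lab j x ≤ bplus K pt lab j x := by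
  have h1 := stepf_ge (hyp hj) (norm_Pp_lt (K := K) (j := j) hx)
  rw [P_Pp, (hyp hj).BP] at h1
  exact h1

lemma bplus_lb {x : E} (hx : ‖x‖ < 2) : -1 ≤ bplus K pt lab j x :=
  ((hyp hj).lb x hx).trans (bplus_ge hj hx)

lemma bplus_ub {x : E} (hx : ‖x‖ < 2) : bplus K pt lab j x ≤ -1 + ‖Pp K j x‖ ^ 2 := by
  have h1 := stepf_le (hyp hj) (norm_Pp_lt (K := K) (j := j) hx)
  rw [Pp_Pp] at h1
  exact h1

omit hj in
lemma sq_lt_four {x : E} (hx : ‖x‖ < 2) : ‖x‖ ^ 2 < 4 := by nlinarith [norm_nonneg x]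

lemma bplus_gap {x y : E} (hx : ‖x‖ < 2) (hy : ‖y‖ < 2) {t : ℝ} (h0 : 0 ≤ t) (h1 : t ≤ 1) :
    gp (Bst K pt lab j) t x y * (16 - (‖Pp K j x‖ ^ 2 + ‖Pp K j y‖ ^ 2)) ≤
      gp (bplus K pt lab j) t x y * (16 - (‖P K j x‖ ^ 2 + ‖P K j y‖ ^ 2)) := by
  have h2 := stepf_gap_ge (hyp hj) (norm_Pp_lt (K := K) (j := j) hx)
    (norm_Pp_lt (K := K) (j := j) hy) h0 h1
  rw [← gp_bplus, P_Pp, P_Pp, Pp_Pp, Pp_Pp] at h2
  have hB : gp (Bst K pt lab j) t (P K j x) (P K j y) = gp (Bst K pt lab j) t x y := by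
    unfold gp
    rw [← P_comb, (hyp hj).BP, (hyp hj).BP, (hyp hj).BP]
  rw [hB] at h2
  have hg : 0 ≤ gp (Bst K pt lab j) t x y := (hyp hj).cvx x y hx hy t h0 h1
  have e1 := block_nonneg (K := K) (j := j) x
  have e2 := block_nonneg (K := K) (j := j) y
  have e3 := sq_lt_four (norm_Pp_lt (K := K) (j := j) hx)
  have e4 := sq_lt_four (norm_Pp_lt (K := K) (j := j) hy)
  set a := ‖Pp K j x‖ ^ 2 with ha
  set b := ‖Pp K j y‖ ^ 2 with hb
  set c := ‖P K j x‖ ^ 2 with hc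
  set d := ‖P K j y‖ ^ 2 with hd
  have hc0 : 0 ≤ c := sq_nonneg _
  have hd0 : 0 ≤ d := sq_nonneg _
  have h3 : gp (Bst K pt lab j) t x y * ((1 - ((a - c) + (b - d)) / 16) * (16 - (c + d))) ≤
      gp (bplus K pt lab j) t x y * (16 - (c + d)) := by
    have : 0 ≤ 16 - (c + d) := by linarith
    nlinarith
  refine le_trans ?_ h3
  apply mul_le_mul_of_nonneg_left _ hg
  nlinarith [mul_nonneg hc0 e1, mul_nonneg hc0 e2, mul_nonneg hd0 e1, mul_nonneg hd0 e2]

lemma bplus_flat {x y : E} (hx : ‖x‖ < 2) (hy : ‖y‖ < 2) (hne : Pp K j x ≠ Pp K j y)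
    (hfl : Flat (bplus K pt lab j) x y) :
    ∃ i, i ≤ j ∧ ∃ a ∈ Ast K pt lab i, ∃ s t : ℝ, 0 ≤ s ∧ 0 ≤ t ∧
      Pp K j x = pt a + s • K.e (i, a) ∧ Pp K j y = pt a + t • K.e (i, a) := by
  have hfl' : Flat (stepf K pt (Bst K pt lab j) (Ast K pt lab j) j) (Pp K j x) (Pp K j y) := by
    intro t h0 h1
    rw [← gp_bplus]
    exact hfl t h0 h1
  have hx' := norm_Pp_lt (K := K) (j := j) hx
  have hy' := norm_Pp_lt (K := K) (j := j) hy
  rcases flat_step (hyp hj) hx' hy' hne (Pp_Pp K j x) (Pp_Pp K j y) (notFlat_pt hj) pt_inj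
    hfl' with ⟨h1, h2, h3⟩ | ⟨a, ha, s, t, hs, ht, h1, h2⟩
  · rw [Bst_eq] at h3
    obtain ⟨i, hi, a, ha, s, t, hs, ht, h4, h5⟩ := hj.flat _ _ h1 h2 hx' hy' hne h3
    exact ⟨i, le_of_lt hi, a, ha, s, t, hs, ht, h4, h5⟩
  · exact ⟨j, le_rfl, a, ha, s, t, hs, ht, h1, h2⟩

end plus

section sup

variable {S : Set I} (hS : ∀ i ∈ S, ∀ j, j < i → j ∈ S) (hOK : ∀ j ∈ S, OK K pt lab (Iio j))
include hS hOK

omit hS in
lemma bdd_BS {x : E} (hx : ‖x‖ < 2) :
    BddAbove (insert (-1) {z | ∃ j ∈ S, z = bplus K pt lab j x}) := by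
  refine ⟨3, ?_⟩
  rintro z (rfl | ⟨j, hj, rfl⟩)
  · norm_num
  · have h1 := bplus_ub (hOK j hj) hx
    have h2 := sq_lt_four (norm_Pp_lt (K := K) (j := j) hx)
    linarith

omit hS in
lemma BS_ge {j : I} (hj : j ∈ S) {x : E} (hx : ‖x‖ < 2) :
    bplus K pt lab j x ≤ BS K pt lab S x :=
  le_csSup (bdd_BS hOK hx) (mem_insert_of_mem _ ⟨j, hj, rfl⟩)

omit hS in
lemma BS_lb {x : E} (hx : ‖x‖ < 2) : -1 ≤ BS K pt lab S x :=
  le_csSup (bdd_BS hOK hx) (mem_insert _ _)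

lemma bplus_mono {i j : I} (hj : j ∈ S) (hij : i ≤ j) {x : E} (hx : ‖x‖ < 2) :
    bplus K pt lab i x ≤ bplus K pt lab j x := by
  rcases eq_or_lt_of_le hij with h | h
  · rw [h]
  · refine le_trans ?_ (bplus_ge (hOK j hj) hx)
    rw [Bst_eq]
    exact (hOK j hj).ge i h x hx

lemma BS_approx {j : I} (hj : j ∈ S) {x : E} (hx : ‖x‖ < 2) {ε : ℝ} (hε : 0 < ε) :
    ∃ i ∈ S, j ≤ i ∧ BS K pt lab S x < bplus K pt lab i x + ε := by
  have h1 : BS K pt lab S x - ε < BS K pt lab S x := by linarith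
  obtain ⟨z, hz, hlt⟩ := exists_lt_of_lt_csSup (insert_nonempty _ _) h1
  rcases hz with rfl | ⟨i, hi, rfl⟩
  · refine ⟨j, hj, le_rfl, ?_⟩
    have := bplus_lb (hOK j hj) hx
    linarith
  · rcases le_total i j with h | h
    · refine ⟨j, hj, le_rfl, ?_⟩
      have := bplus_mono hS hOK hj h hx
      linarith
    · exact ⟨i, hi, h, by linarith⟩

lemma bplus_gap_chain {i j : I} (hj : j ∈ S) (hij : i ≤ j) {x y : E} (hx : ‖x‖ < 2)
    (hy : ‖y‖ < 2) {t : ℝ} (h0 : 0 ≤ t) (h1 : t ≤ 1) :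
    gp (bplus K pt lab i) t x y * (16 - (‖Pp K j x‖ ^ 2 + ‖Pp K j y‖ ^ 2)) ≤
      gp (bplus K pt lab j) t x y * (16 - (‖Pp K i x‖ ^ 2 + ‖Pp K i y‖ ^ 2)) := by
  rcases eq_or_lt_of_le hij with h | h
  · rw [h]
  · have e1 := (hOK j hj).gap i h x y hx hy t h0 h1
    rw [PS_Iio, ← Bst_eq] at e1
    have e2 := bplus_gap (hOK j hj) hx hy h0 h1
    have e3 := sq_lt_four (norm_Pp_lt (K := K) (j := j) hx)
    have e4 := sq_lt_four (norm_Pp_lt (K := K) (j := j) hy)
    have e5 := sq_lt_four (norm_Pp_lt (K := K) (j := i) hx)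
    have e6 := sq_lt_four (norm_Pp_lt (K := K) (j := i) hy)
    have e7 := block_nonneg (K := K) (j := j) x
    have e8 := block_nonneg (K := K) (j := j) y
    set u := 16 - (‖P K j x‖ ^ 2 + ‖P K j y‖ ^ 2) with hu
    set v := 16 - (‖Pp K j x‖ ^ 2 + ‖Pp K j y‖ ^ 2) with hv
    set w := 16 - (‖Pp K i x‖ ^ 2 + ‖Pp K i y‖ ^ 2) with hw
    have hu0 : 0 < u := by linarith
    have hv0 : 0 < v := by linarith
    have hw0 : 0 < w := by linarith
    have e9 := mul_le_mul_of_nonneg_right e1 hv0.le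
    have e10 := mul_le_mul_of_nonneg_right e2 hw0.le
    have e11 : (gp (bplus K pt lab i) t x y * v) * u ≤ (gp (bplus K pt lab j) t x y * w) * u := by
      linarith
    exact le_of_mul_le_mul_right e11 hu0

lemma gp_BS_ge {j : I} (hj : j ∈ S) {x y : E} (hx : ‖x‖ < 2) (hy : ‖y‖ < 2) {t : ℝ} (h0 : 0 ≤ t)
    (h1 : t ≤ 1) {ε : ℝ} (hε : 0 < ε) :
    ∃ i ∈ S, j ≤ i ∧ gp (bplus K pt lab i) t x y - ε ≤ gp (BS K pt lab S) t x y := by
  have hz : ‖(1 - t) • x + t • y‖ < 2 := norm_comb_lt hx hy h0 h1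
  obtain ⟨i, hi, hji, hlt⟩ := BS_approx hS hOK hj hz hε
  refine ⟨i, hi, hji, ?_⟩
  have h2 := BS_ge hOK hi hx
  have h3 := BS_ge hOK hi hy
  have h4 : 0 ≤ 1 - t := by linarith
  have h5 := mul_le_mul_of_nonneg_left h2 h4
  have h6 := mul_le_mul_of_nonneg_left h3 h0
  unfold gp
  linarith

lemma norm_PS_ge {j : I} (hj : j ∈ S) (x : E) : ‖Pp K j x‖ ^ 2 ≤ ‖PS K S x‖ ^ 2 := by
  apply K.norm_R_le_of_subset
  intro γ hγ
  rcases eq_or_lt_of_le (show γ.1 ≤ j from hγ) with h | h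
  · show γ.1 ∈ S
    rw [h]; exact hj
  · exact hS j hj _ h

theorem ok_sup : OK K pt lab S where
  cvx := by
    intro x y hx hy t h0 h1
    rcases S.eq_empty_or_nonempty with rfl | ⟨j, hj⟩
    · have : ∀ z : E, BS K pt lab (∅ : Set I) z = -1 := by
        intro z
        unfold BS
        have : {w | ∃ j ∈ (∅ : Set I), w = bplus K pt lab j z} = ∅ := by
          ext w; simp
        rw [this]
        simp
      unfold gp
      rw [this, this, this]
      linarith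
    · by_contra hcon
      push Not at hcon
      obtain ⟨i, hi, _, h2⟩ := gp_BS_ge hS hOK hj hx hy h0 h1
        (show 0 < -(gp (BS K pt lab S) t x y) / 2 by linarith)
      have h3 := bplus_cvx (hOK i hi) x y hx hy t h0 h1
      linarith
  lb := fun x hx => BS_lb hOK hx
  ub := fun x hx => by
    apply csSup_le (insert_nonempty _ _)
    rintro z (rfl | ⟨j, hj, rfl⟩)
    · have := sq_nonneg ‖PS K S x‖
      linarith
    · have h1 := bplus_ub (hOK j hj) hx
      have h2 := norm_PS_ge hS hOK hj x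
      linarith
  BP := fun x => by
    have h1 : ∀ j ∈ S, bplus K pt lab j (PS K S x) = bplus K pt lab j x := by
      intro j hj
      unfold bplus
      congr 1
      apply K.R_R_of_subset
      intro γ hγ
      rcases eq_or_lt_of_le (show γ.1 ≤ j from hγ) with h | h
      · show γ.1 ∈ S
        rw [h]; exact hj
      · exact hS j hj _ h
    have h2 : {z | ∃ j ∈ S, z = bplus K pt lab j (PS K S x)} =
        {z | ∃ j ∈ S, z = bplus K pt lab j x} := by
      ext z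
      constructor
      · rintro ⟨j, hj, rfl⟩
        exact ⟨j, hj, h1 j hj⟩
      · rintro ⟨j, hj, rfl⟩
        exact ⟨j, hj, (h1 j hj).symm⟩
    unfold BS
    rw [h2]
  ge := fun j hj x hx => BS_ge hOK hj hx
  gap := by
    intro j hj x y hx hy t h0 h1
    have e1 := norm_PS_ge hS hOK hj x
    have e2 := norm_PS_ge hS hOK hj y
    have e3 : ‖PS K S x‖ ^ 2 < 4 := lt_of_le_of_lt (K.norm_sq_R_le _ x) (sq_lt_four hx)
    have e4 : ‖PS K S y‖ ^ 2 < 4 := lt_of_le_of_lt (K.norm_sq_R_le _ y) (sq_lt_four hy)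
    have hg0 := bplus_cvx (hOK j hj) x y hx hy t h0 h1
    apply le_of_forall_pos_le_add
    intro ε hε
    obtain ⟨i, hi, hji, h2⟩ := gp_BS_ge hS hOK hj hx hy h0 h1 (show 0 < ε / 16 by linarith)
    have h3 := bplus_gap_chain hS hOK hi hji hx hy h0 h1
    have e5 := norm_PS_ge hS hOK hi x
    have e6 := norm_PS_ge hS hOK hi y
    set w := 16 - (‖Pp K j x‖ ^ 2 + ‖Pp K j y‖ ^ 2) with hw
    have hw0 : 0 < w := by linarith
    have hw16 : w ≤ 16 := by
      have := sq_nonneg ‖Pp K j x‖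
      have := sq_nonneg ‖Pp K j y‖
      linarith
    have h4 : gp (bplus K pt lab j) t x y * (16 - (‖PS K S x‖ ^ 2 + ‖PS K S y‖ ^ 2)) ≤
        gp (bplus K pt lab j) t x y * (16 - (‖Pp K i x‖ ^ 2 + ‖Pp K i y‖ ^ 2)) :=
      mul_le_mul_of_nonneg_left (by linarith) hg0
    have h5 : (gp (bplus K pt lab i) t x y - ε / 16) * w ≤ gp (BS K pt lab S) t x y * w :=
      mul_le_mul_of_nonneg_right h2 hw0.le
    nlinarith
  flat := by
    intro x y hPx hPy hx hy hxy hfl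
    have hflj : ∀ j ∈ S, Flat (bplus K pt lab j) x y := by
      intro j hj t h0 h1
      have e1 := norm_PS_ge hS hOK hj x
      have e2 := norm_PS_ge hS hOK hj y
      have e3 : ‖PS K S x‖ ^ 2 < 4 := lt_of_le_of_lt (K.norm_sq_R_le _ x) (sq_lt_four hx)
      have e4 : ‖PS K S y‖ ^ 2 < 4 := lt_of_le_of_lt (K.norm_sq_R_le _ y) (sq_lt_four hy)
      have hg0 := bplus_cvx (hOK j hj) x y hx hy t h0 h1
      -- the gap inequality (proved again, as above)
      have hgap : gp (bplus K pt lab j) t x y * (16 - (‖PS K S x‖ ^ 2 + ‖PS K S y‖ ^ 2)) ≤ 0 := by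
        apply le_of_forall_pos_le_add
        intro ε hε
        obtain ⟨i, hi, hji, h2⟩ := gp_BS_ge hS hOK hj hx hy h0 h1
          (show 0 < ε / 16 by linarith)
        rw [hfl t h0 h1] at h2
        have h3 := bplus_gap_chain hS hOK hi hji hx hy h0 h1
        have e5 := norm_PS_ge hS hOK hi x
        have e6 := norm_PS_ge hS hOK hi y
        set w := 16 - (‖Pp K j x‖ ^ 2 + ‖Pp K j y‖ ^ 2) with hw
        have hw0 : 0 < w := by linarith
        have hw16 : w ≤ 16 := by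
          have := sq_nonneg ‖Pp K j x‖
          have := sq_nonneg ‖Pp K j y‖
          linarith
        have h4 : gp (bplus K pt lab j) t x y * (16 - (‖PS K S x‖ ^ 2 + ‖PS K S y‖ ^ 2)) ≤
            gp (bplus K pt lab j) t x y * (16 - (‖Pp K i x‖ ^ 2 + ‖Pp K i y‖ ^ 2)) :=
          mul_le_mul_of_nonneg_left (by linarith) hg0
        nlinarith
      by_contra hne
      have hpos : 0 < gp (bplus K pt lab j) t x y := lt_of_le_of_ne hg0 (Ne.symm hne)
      nlinarith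
    -- a coordinate where the two points differ
    have hex : ∃ γ : I × X, K.c γ x ≠ K.c γ y := by
      by_contra hcon
      push Not at hcon
      exact hxy (K.ext hcon)
    obtain ⟨γ₀, hγ₀⟩ := hex
    have hx0 := (K.R_eq_self_iff _ x).mp hPx
    have hy0 := (K.R_eq_self_iff _ y).mp hPy
    have hγS : γ₀.1 ∈ S := by
      by_contra hcon
      exact hγ₀ (by rw [hx0 γ₀ hcon, hy0 γ₀ hcon])
    have key : ∀ j ∈ S, γ₀.1 ≤ j → γ₀.2 ∈ Ast K pt lab γ₀.1 ∧ 0 ≤ K.c γ₀ x ∧ 0 ≤ K.c γ₀ y ∧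
        Pp K j x = pt γ₀.2 + K.c γ₀ x • K.e γ₀ ∧ Pp K j y = pt γ₀.2 + K.c γ₀ y • K.e γ₀ := by
      intro j hj hle
      have hne : Pp K j x ≠ Pp K j y := by
        intro h
        apply hγ₀
        rw [← Pp_c K j hle x, ← Pp_c K j hle y, h]
      obtain ⟨i, hi, a, ha, s, t, hs, ht, h1, h2⟩ := bplus_flat (hOK j hj) hx hy hne (hflj j hj)
      have hgam : γ₀ = (i, a) := by
        by_contra hcon
        apply hγ₀
        rw [← Pp_c K j hle x, ← Pp_c K j hle y, h1, h2, map_add, map_add, map_smul, map_smul,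
          K.c_e_ne _ _ hcon, smul_zero, smul_zero]
      have hpt0 : K.c (i, a) (pt a) = 0 := by
        rw [← ((mem_Ast K pt lab i a).mp ha).2.1, P_c_not K i (γ := (i, a)) (lt_irrefl _)]
      have hcs : K.c γ₀ x = s := by
        rw [← Pp_c K j hle x, h1, hgam, map_add, map_smul, hpt0, K.c_e_self, smul_eq_mul,
          mul_one, zero_add]
      have hct : K.c γ₀ y = t := by
        rw [← Pp_c K j hle y, h2, hgam, map_add, map_smul, hpt0, K.c_e_self, smul_eq_mul,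
          mul_one, zero_add]
      rw [hcs, hct, h1, h2]
      subst hgam
      exact ⟨ha, hs, ht, rfl, rfl⟩
    obtain ⟨hA, hcx, hcy, _, _⟩ := key γ₀.1 hγS le_rfl
    have hptP : P K γ₀.1 (pt γ₀.2) = pt γ₀.2 := ((mem_Ast K pt lab _ _).mp hA).2.1
    refine ⟨γ₀.1, hγS, γ₀.2, hA, K.c γ₀ x, K.c γ₀ y, hcx, hcy, ?_, ?_⟩
    · apply K.ext
      intro γ
      by_cases hγ : γ.1 ∈ S
      · have hmax : max γ.1 γ₀.1 ∈ S := by
          rcases le_total γ.1 γ₀.1 with h | h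
          · rw [max_eq_right h]; exact hγS
          · rw [max_eq_left h]; exact hγ
        obtain ⟨_, _, _, h1, _⟩ := key _ hmax (le_max_right _ _)
        have h2 := Pp_c K (max γ.1 γ₀.1) (γ := γ) (le_max_left _ _) x
        rw [← h2, h1]
      · rw [hx0 γ hγ, map_add, map_smul, ← hptP, P_c_not K γ₀.1 (fun h => hγ (hS _ hγS _ h)),
          K.c_e_ne γ γ₀ (fun h => hγ (by rw [h]; exact hγS)), smul_zero, add_zero]
    · apply K.ext
      intro γ
      by_cases hγ : γ.1 ∈ S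
      · have hmax : max γ.1 γ₀.1 ∈ S := by
          rcases le_total γ.1 γ₀.1 with h | h
          · rw [max_eq_right h]; exact hγS
          · rw [max_eq_left h]; exact hγ
        obtain ⟨_, _, _, _, h1⟩ := key _ hmax (le_max_right _ _)
        have h2 := Pp_c K (max γ.1 γ₀.1) (γ := γ) (le_max_left _ _) y
        rw [← h2, h1]
      · rw [hy0 γ hγ, map_add, map_smul, ← hptP, P_c_not K γ₀.1 (fun h => hγ (hS _ hγS _ h)),
          K.c_e_ne γ γ₀ (fun h => hγ (by rw [h]; exact hγS)), smul_zero, add_zero]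

end sup

theorem ok_Iio (i : I) : OK K pt lab (Iio i) := by
  induction i using WellFoundedLT.induction with
  | ind i ih =>
    apply ok_sup
    · intro j hj k hk
      exact lt_trans hk hj
    · intro j hj
      exact ih j hj

theorem ok_univ : OK K pt lab (univ : Set I) := by
  apply ok_sup
  · intro j _ k _
    exact mem_univ _
  · intro j _
    exact ok_Iio j

end recursion

end FarPt
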