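import Pool.Agent.H33.Far.Gap

/-!
# The successor step
-/

open Set Filter Topology

set_option linter.unusedSectionVars false

namespace FarPt

universe u

section defs

variable {I X E : Type u} [LinearOrder I] [NormedAddCommGroup E] [InnerProductSpace ℝ E]

/-- projection on the levels below `j` -/
def P (K : CoordSys (I × X) E) (j : I) : E →ₗ[ℝ] E := K.R {γ | γ.1 < j}

/-- projection on the levels up to `j` -/
def Pp (K : CoordSys (I × X) E) (j : I) : E →ₗ[ℝ] E := K.R {γ | γ.1 ≤ j}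

/-- weight -/
noncomputable def mu (K : CoordSys (I × X) E) (j : I) (k : ℕ) (a : X) (x : E) : ℝ :=
  (max (K.c (j, a) x - (1 / 2) ^ k) 0) ^ 2 / (4 * (8 - ‖x‖ ^ 2))

/-- elementary function -/
noncomputable def ff (K : CoordSys (I × X) E) (B : E → ℝ) (j : I) (q : E) (k : ℕ) (a : X)
    (x : E) : ℝ :=
  mu K j k a x * B q + ps B (1 - mu K j k a x) (P K j x - mu K j k a x • q)

/-- coefficients -/
noncomputable def ww (k : ℕ) : ℝ := (1 / 32) * (1 / 8) ^ k

open Classical in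
/-- the bad part of a coordinate -/
noncomputable def bb (K : CoordSys (I × X) E) (A : Set X) (j : I) (a : X) (x : E) : ℝ :=
  if a ∈ A then max (-(K.c (j, a) x)) 0 else |K.c (j, a) x|

open Classical in
/-- terms of the series -/
noncomputable def T (K : CoordSys (I × X) E) (pt : X → E) (B : E → ℝ) (A : Set X) (j : I) :
    X × ℕ → E → ℝ
  | (a, 0), x => (bb K A j a x) ^ 2 / (8 - ‖x‖ ^ 2)
  | (a, k + 1), x => if a ∈ A then ww k * (ff K B j (pt a) k a x - B (P K j x)) else 0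

/-- the successor step -/
noncomputable def stepf (K : CoordSys (I × X) E) (pt : X → E) (B : E → ℝ) (A : Set X) (j : I)
    (x : E) : ℝ :=
  B (P K j x) + ∑' p : X × ℕ, T K pt B A j p x

/-- hypotheses for the successor step -/
structure Hyp (K : CoordSys (I × X) E) (pt : X → E) (B : E → ℝ) (A : Set X) (j : I) : Prop where
  BP : ∀ x, B (P K j x) = B x
  cvx : Cvx B
  lb : ∀ x, ‖x‖ < 2 → -1 ≤ B x
  ub : ∀ x, ‖x‖ < 2 → B x ≤ -1 + ‖P K j x‖ ^ 2
  ptP : ∀ a ∈ A, P K j (pt a) = pt a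
  ptn : ∀ a ∈ A, ‖pt a‖ ≤ 1

end defs

section basic

variable {I X E : Type u} [LinearOrder I] [NormedAddCommGroup E] [InnerProductSpace ℝ E]
  (K : CoordSys (I × X) E) (j : I)

lemma P_P (x : E) : P K j (P K j x) = P K j x := K.R_R_of_subset (subset_refl _) x

lemma Pp_Pp (x : E) : Pp K j (Pp K j x) = Pp K j x := K.R_R_of_subset (subset_refl _) x

lemma P_Pp (x : E) : P K j (Pp K j x) = P K j x :=
  K.R_R_of_subset (fun _ h => le_of_lt h) x

lemma Pp_P (x : E) : Pp K j (P K j x) = P K j x :=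
  K.R_R_of_subset' (fun _ h => le_of_lt h) x

lemma norm_P_le (x : E) : ‖P K j x‖ ≤ ‖x‖ := K.norm_R_le _ x

lemma norm_Pp_le (x : E) : ‖Pp K j x‖ ≤ ‖x‖ := K.norm_R_le _ x

lemma P_c {γ : I × X} (h : γ.1 < j) (x : E) : K.c γ (P K j x) = K.c γ x := K.c_R_mem _ _ _ h

lemma P_c_not {γ : I × X} (h : ¬ γ.1 < j) (x : E) : K.c γ (P K j x) = 0 := K.c_R_notMem _ _ _ h

lemma Pp_c {γ : I × X} (h : γ.1 ≤ j) (x : E) : K.c γ (Pp K j x) = K.c γ x := K.c_R_mem _ _ _ h

lemma Pp_c_not {γ : I × X} (h : ¬ γ.1 ≤ j) (x : E) : K.c γ (Pp K j x) = 0 :=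
  K.c_R_notMem _ _ _ h

lemma hasSum_block (x : E) :
    HasSum (fun a : X => (K.c (j, a) x) ^ 2) (‖Pp K j x‖ ^ 2 - ‖P K j x‖ ^ 2) := by
  have h1 := (K.hasSum_sq (Pp K j x)).sub (K.hasSum_sq (P K j x))
  have hinj : Function.Injective (fun a : X => ((j, a) : I × X)) := by
    intro a b h
    exact (Prod.mk.injEq _ _ _ _ ▸ h).2
  rw [← hinj.hasSum_iff] at h1
  · have h2 : ((fun γ => K.c γ (Pp K j x) ^ 2 - K.c γ (P K j x) ^ 2) ∘ fun a : X =>
        ((j, a) : I × X)) = fun a : X => (K.c (j, a) x) ^ 2 := by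
      funext a
      simp only [Function.comp_apply]
      rw [Pp_c K j (γ := (j, a)) le_rfl, P_c_not K j (γ := (j, a)) (lt_irrefl _)]
      ring
    rw [h2] at h1
    exact h1
  · rintro ⟨i, a⟩ hγ
    have hne : i ≠ j := by
      rintro rfl
      exact hγ ⟨a, rfl⟩
    rcases lt_or_gt_of_ne hne with h | h
    · rw [Pp_c K j (γ := (i, a)) h.le, P_c K j (γ := (i, a)) h, sub_self]
    · rw [Pp_c_not K j (γ := (i, a)) (not_le.mpr h), P_c_not K j (γ := (i, a)) (not_lt.mpr h.le),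
        sub_self]

lemma c_sq_add_le (a : X) (x : E) : ‖P K j x‖ ^ 2 + (K.c (j, a) x) ^ 2 ≤ ‖x‖ ^ 2 := by
  have h1 := hasSum_block K j x
  have h2 : (K.c (j, a) x) ^ 2 ≤ ‖Pp K j x‖ ^ 2 - ‖P K j x‖ ^ 2 :=
    le_hasSum h1 a (fun b _ => sq_nonneg _)
  have h3 := K.norm_sq_R_le {γ | γ.1 ≤ j} x
  have h4 : ‖Pp K j x‖ ^ 2 ≤ ‖x‖ ^ 2 := h3
  linarith

lemma ww_pos (k : ℕ) : 0 < ww k := by unfold ww; positivity

lemma eps_pos (k : ℕ) : (0 : ℝ) < (1 / 2) ^ k := by positivity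

lemma den_pos {x : E} (hx : ‖x‖ < 2) : 4 < 8 - ‖x‖ ^ 2 := by nlinarith [norm_nonneg x]

lemma mu_nonneg {x : E} (hx : ‖x‖ < 2) (k : ℕ) (a : X) : 0 ≤ mu K j k a x := by
  have := den_pos hx
  unfold mu
  apply div_nonneg (sq_nonneg _)
  linarith

lemma mu_le {x : E} (hx : ‖x‖ < 2) (k : ℕ) (a : X) :
    mu K j k a x ≤ (K.c (j, a) x) ^ 2 / 16 := by
  have hd := den_pos hx
  unfold mu
  have h1 : (max (K.c (j, a) x - (1 / 2) ^ k) 0) ^ 2 ≤ (K.c (j, a) x) ^ 2 := by
    have hk := eps_pos k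
    rcases le_total (K.c (j, a) x - (1 / 2) ^ k) 0 with h | h
    · rw [max_eq_right h]
      nlinarith [sq_nonneg (K.c (j, a) x)]
    · rw [max_eq_left h]
      apply pow_le_pow_left₀ h
      linarith
  rw [div_le_div_iff₀ (by linarith) (by norm_num)]
  have h2 : (0:ℝ) ≤ (K.c (j, a) x) ^ 2 := sq_nonneg _
  nlinarith

lemma mu_lt {x : E} (hx : ‖x‖ < 2) (k : ℕ) (a : X) : mu K j k a x < 1 / 4 := by
  have h1 := mu_le K j hx k a
  have h2 := c_sq_add_le K j a x
  have h3 : ‖x‖ ^ 2 < 4 := by nlinarith [norm_nonneg x]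
  have h4 := sq_nonneg ‖P K j x‖
  linarith

lemma mu_eq_zero {x : E} {k : ℕ} {a : X} (h : K.c (j, a) x ≤ (1 / 2) ^ k) :
    mu K j k a x = 0 := by
  unfold mu
  rw [max_eq_right (by linarith)]
  simp

/-- the moved point stays in the ball -/
lemma norm_moved {x q : E} (hx : ‖x‖ < 2) (hq : ‖q‖ ≤ 1) (k : ℕ) (a : X) :
    ‖(1 - mu K j k a x)⁻¹ • (P K j x - mu K j k a x • q)‖ < 2 := by
  have h0 := mu_nonneg K j hx k a
  have h1 := mu_lt K j hx k a
  have h2 := mu_le K j hx k a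
  have h3 := c_sq_add_le K j a x
  set m := mu K j k a x with hm
  have hpos : 0 < 1 - m := by linarith
  rw [norm_smul, Real.norm_eq_abs, abs_of_pos (inv_pos.mpr hpos), inv_mul_lt_iff₀ hpos]
  have h4 : ‖P K j x - m • q‖ ≤ ‖P K j x‖ + m := by
    refine (norm_sub_le _ _).trans ?_
    rw [norm_smul, Real.norm_eq_abs, abs_of_nonneg h0]
    nlinarith
  have h5 : ‖P K j x‖ ^ 2 < (2 - 3 * m) ^ 2 := by
    have h6 : ‖x‖ ^ 2 < 4 := by nlinarith [norm_nonneg x]
    nlinarith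
  have h6 : ‖P K j x‖ < 2 - 3 * m := lt_of_pow_lt_pow_left₀ 2 (by linarith) h5
  linarith

end basic

section step

variable {I X E : Type u} [LinearOrder I] [NormedAddCommGroup E] [InnerProductSpace ℝ E]
  {K : CoordSys (I × X) E} {pt : X → E} {B : E → ℝ} {A : Set X} {j : I}
  (H : Hyp K pt B A j)
include H

lemma B_norm_P {x : E} (hx : ‖x‖ < 2) : ‖P K j x‖ < 2 := (norm_P_le K j x).trans_lt hx

lemma B_pt_le {a : X} (ha : a ∈ A) : B (pt a) ≤ 0 := by
  have h1 := H.ptn a ha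
  have h2 := H.ub (pt a) (by linarith)
  have h3 := norm_P_le K j (pt a)
  have h4 := norm_nonneg (P K j (pt a))
  nlinarith

lemma ff_inactive {x q : E} {k : ℕ} {a : X} (h : K.c (j, a) x ≤ (1 / 2) ^ k) :
    ff K B j q k a x = B (P K j x) := by
  unfold ff
  rw [mu_eq_zero K j h, zero_mul, zero_smul, sub_zero, sub_zero, zero_add, ps_one]

lemma ff_ge {x : E} (hx : ‖x‖ < 2) {a : X} (ha : a ∈ A) (k : ℕ) :
    B (P K j x) ≤ ff K B j (pt a) k a x := by
  have h0 := mu_nonneg K j hx k a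
  have h1 := mu_lt K j hx k a
  have h2 := norm_moved K j hx (H.ptn a ha) k a
  unfold ff
  set m := mu K j k a x with hm
  rcases eq_or_lt_of_le h0 with h | h
  · rw [← h, zero_mul, zero_smul, sub_zero, sub_zero, zero_add, ps_one]
  · have h3 := (ps_sub H.cvx h (show 0 < 1 - m by linarith) (v₁ := m • pt a)
      (v₂ := P K j x - m • pt a) (by
        rw [smul_smul, inv_mul_cancel₀ h.ne', one_smul]
        linarith [H.ptn a ha]) h2).1
    have e1 : m + (1 - m) = 1 := by ring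
    have e2 : m • pt a + (P K j x - m • pt a) = P K j x := by abel
    rw [e1, e2, ps_one] at h3
    have e3 : ps B m (m • pt a) = m * B (pt a) := by
      unfold ps
      rw [smul_smul, inv_mul_cancel₀ h.ne', one_smul]
    rw [e3] at h3
    exact h3

lemma ff_le {x : E} (hx : ‖x‖ < 2) {a : X} (ha : a ∈ A) (k : ℕ) :
    ff K B j (pt a) k a x ≤ -1 + ‖P K j x‖ ^ 2 + 12 * mu K j k a x := by
  have h0 := mu_nonneg K j hx k a
  have h1 := mu_lt K j hx k a
  have h2 := norm_moved K j hx (H.ptn a ha) k a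
  have h3 := mu_le K j hx k a
  have h4 := c_sq_add_le K j a x
  unfold ff ps
  set m := mu K j k a x with hm
  have hpos : 0 < 1 - m := by linarith
  have h5 := H.ub _ h2
  have h6 : ‖P K j ((1 - m)⁻¹ • (P K j x - m • pt a))‖ ^ 2 ≤
      ((1 - m)⁻¹) ^ 2 * (‖P K j x‖ + m) ^ 2 := by
    have h7 := norm_P_le K j ((1 - m)⁻¹ • (P K j x - m • pt a))
    rw [norm_smul, Real.norm_eq_abs, abs_of_pos (inv_pos.mpr hpos)] at h7
    have h8 : ‖P K j x - m • pt a‖ ≤ ‖P K j x‖ + m := by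
      refine (norm_sub_le _ _).trans ?_
      rw [norm_smul, Real.norm_eq_abs, abs_of_nonneg h0]
      nlinarith [H.ptn a ha]
    rw [← mul_pow]
    apply pow_le_pow_left₀ (norm_nonneg _)
    refine h7.trans ?_
    gcongr
  have h7 : B (pt a) ≤ 0 := B_pt_le H ha
  have h8 : m * B (pt a) ≤ 0 := mul_nonpos_of_nonneg_of_nonpos h0 h7
  have h9 : (1 - m) * B ((1 - m)⁻¹ • (P K j x - m • pt a)) ≤
      -(1 - m) + (‖P K j x‖ + m) ^ 2 / (1 - m) := by
    have : (1 - m) * B ((1 - m)⁻¹ • (P K j x - m • pt a)) ≤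
        (1 - m) * (-1 + ((1 - m)⁻¹) ^ 2 * (‖P K j x‖ + m) ^ 2) := by
      apply mul_le_mul_of_nonneg_left _ hpos.le
      linarith
    refine this.trans (le_of_eq ?_)
    field_simp
  have h10 : (‖P K j x‖ + m) ^ 2 / (1 - m) ≤ ‖P K j x‖ ^ 2 + 11 * m := by
    rw [div_le_iff₀ hpos]
    have hr := norm_nonneg (P K j x)
    have hr2 : ‖P K j x‖ < 2 := B_norm_P H hx
    nlinarith [mul_nonneg h0 hr, mul_nonneg h0 (sub_nonneg.mpr hr2.le),
      mul_nonneg h0 h0, mul_nonneg (mul_nonneg h0 hr) (sub_nonneg.mpr hr2.le)]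
  linarith

lemma ff_sub_le {x : E} (hx : ‖x‖ < 2) {a : X} (ha : a ∈ A) (k : ℕ) :
    ff K B j (pt a) k a x - B (P K j x) ≤ 4 := by
  have h0 := mu_nonneg K j hx k a
  have h1 := mu_lt K j hx k a
  have h2 := norm_moved K j hx (H.ptn a ha) k a
  have h3 := H.lb (P K j x) (B_norm_P H hx)
  unfold ff ps
  set m := mu K j k a x with hm
  have hpos : 0 < 1 - m := by linarith
  have h5 := H.ub _ h2
  have h7 := norm_P_le K j ((1 - m)⁻¹ • (P K j x - m • pt a))
  have h8 : B ((1 - m)⁻¹ • (P K j x - m • pt a)) ≤ 3 := by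
    have h9 := norm_nonneg (P K j ((1 - m)⁻¹ • (P K j x - m • pt a)))
    nlinarith
  have h9 : B (pt a) ≤ 0 := B_pt_le H ha
  have h10 : m * B (pt a) ≤ 0 := mul_nonpos_of_nonneg_of_nonpos h0 h9
  have h11 : (1 - m) * B ((1 - m)⁻¹ • (P K j x - m • pt a)) ≤ (1 - m) * 3 :=
    mul_le_mul_of_nonneg_left h8 hpos.le
  nlinarith

/-- bounds for the terms -/
noncomputable def gam : ℕ → ℝ
  | 0 => 1 / 4
  | k + 1 => (1 / 8) * (1 / 2) ^ k

omit H [LinearOrder I] [NormedAddCommGroup E] [InnerProductSpace ℝ E] in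
lemma gam_nonneg (k : ℕ) : 0 ≤ gam k := by
  cases k with
  | zero => unfold gam; norm_num
  | succ k => unfold gam; positivity

omit H [LinearOrder I] [NormedAddCommGroup E] [InnerProductSpace ℝ E] in
lemma summable_gam : Summable gam := by
  rw [← summable_nat_add_iff 1]
  have h1 : (fun k => gam (k + 1)) = fun k : ℕ => (1 / 8 : ℝ) * (1 / 2) ^ k := by
    funext k; rfl
  rw [h1]
  exact (summable_geometric_of_lt_one (by norm_num) (by norm_num)).mul_left _

omit H [LinearOrder I] [NormedAddCommGroup E] [InnerProductSpace ℝ E] in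
lemma four_pow_mul {c : ℝ} {k : ℕ} (h : (1 / 2 : ℝ) ^ k < c) : 1 ≤ 4 ^ k * c ^ 2 := by
  have h0 := eps_pos k
  have h1 : ((1 / 2 : ℝ) ^ k) ^ 2 ≤ c ^ 2 := pow_le_pow_left₀ h0.le h.le 2
  have h2 : (4 : ℝ) ^ k * ((1 / 2 : ℝ) ^ k) ^ 2 = 1 := by
    rw [← pow_mul, mul_comm k 2, pow_mul, ← mul_pow]
    norm_num
  rw [← h2]
  gcongr

omit H in
lemma bb_nonneg (a : X) (x : E) : 0 ≤ bb K A j a x := by
  unfold bb
  split_ifs
  · exact le_max_right _ _
  · exact abs_nonneg _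

omit H in
lemma bb_sq_le (a : X) (x : E) : (bb K A j a x) ^ 2 ≤ (K.c (j, a) x) ^ 2 := by
  unfold bb
  split_ifs
  · rcases le_total (-(K.c (j, a) x)) 0 with h | h
    · rw [max_eq_right h, zero_pow two_ne_zero]
      exact sq_nonneg _
    · rw [max_eq_left h, neg_sq]
  · rw [sq_abs]

omit H in
lemma T_zero (a : X) (x : E) : T K pt B A j (a, 0) x = (bb K A j a x) ^ 2 / (8 - ‖x‖ ^ 2) := rfl

omit H in
lemma T_succ_mem {a : X} (ha : a ∈ A) (k : ℕ) (x : E) :
    T K pt B A j (a, k + 1) x = ww k * (ff K B j (pt a) k a x - B (P K j x)) := if_pos ha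

omit H in
lemma T_succ_notMem {a : X} (ha : a ∉ A) (k : ℕ) (x : E) :
    T K pt B A j (a, k + 1) x = 0 := if_neg ha

lemma T_nonneg {x : E} (hx : ‖x‖ < 2) (p : X × ℕ) : 0 ≤ T K pt B A j p x := by
  obtain ⟨a, k⟩ := p
  cases k with
  | zero =>
    rw [T_zero]
    have := den_pos hx
    exact div_nonneg (sq_nonneg _) (by linarith)
  | succ k =>
    by_cases h : a ∈ A
    · rw [T_succ_mem h]
      exact mul_nonneg (ww_pos k).le (sub_nonneg.mpr (ff_ge H hx h k))
    · rw [T_succ_notMem h]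

lemma T_le {x : E} (hx : ‖x‖ < 2) (p : X × ℕ) :
    T K pt B A j p x ≤ (K.c (j, p.1) x) ^ 2 * gam p.2 := by
  obtain ⟨a, k⟩ := p
  cases k with
  | zero =>
    rw [T_zero]
    unfold gam
    have hd := den_pos hx
    have h1 := bb_sq_le (K := K) (A := A) (j := j) a x
    simp only
    rw [div_le_iff₀ (by linarith)]
    have h2 := sq_nonneg (K.c (j, a) x)
    nlinarith
  | succ k =>
    unfold gam
    simp only
    by_cases h : a ∈ A
    · rw [T_succ_mem h]
      rcases le_or_gt (K.c (j, a) x) ((1 / 2) ^ k) with h1 | h1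
      · rw [ff_inactive H h1, sub_self, mul_zero]
        positivity
      · have h2 := ff_sub_le H hx h k
        have h3 := four_pow_mul h1
        calc ww k * (ff K B j (pt a) k a x - B (P K j x)) ≤ ww k * 4 :=
              mul_le_mul_of_nonneg_left h2 (ww_pos k).le
          _ ≤ ww k * 4 * (4 ^ k * (K.c (j, a) x) ^ 2) :=
              le_mul_of_one_le_right (by have := ww_pos k; positivity) h3
          _ = (K.c (j, a) x) ^ 2 * ((1 / 8) * (1 / 2) ^ k) := by
              unfold ww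
              have : (1 / 8 : ℝ) ^ k * 4 ^ k = (1 / 2) ^ k := by
                rw [← mul_pow]; norm_num
              calc (1 / 32 : ℝ) * (1 / 8) ^ k * 4 * (4 ^ k * (K.c (j, a) x) ^ 2) =
                    (1 / 8) * ((1 / 8 : ℝ) ^ k * 4 ^ k) * (K.c (j, a) x) ^ 2 := by ring
                _ = _ := by rw [this]; ring
    · rw [T_succ_notMem h]
      positivity

omit H in
lemma summable_c (x : E) : Summable (fun a : X => (K.c (j, a) x) ^ 2) :=
  (hasSum_block K j x).summable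

omit H in
lemma summable_c_gam (x : E) : Summable (fun p : X × ℕ => (K.c (j, p.1) x) ^ 2 * gam p.2) :=
  Summable.mul_of_nonneg (summable_c x) summable_gam (fun _ => sq_nonneg _) (fun k => gam_nonneg k)

lemma summable_T {x : E} (hx : ‖x‖ < 2) : Summable (fun p : X × ℕ => T K pt B A j p x) :=
  Summable.of_nonneg_of_le (T_nonneg H hx) (T_le H hx) (summable_c_gam x)

lemma stepf_ge {x : E} (hx : ‖x‖ < 2) : B (P K j x) ≤ stepf K pt B A j x := by
  unfold stepf
  have : 0 ≤ ∑' p : X × ℕ, T K pt B A j p x := tsum_nonneg (T_nonneg H hx)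
  linarith

/-- coefficients in the gap inequality -/
noncomputable def et : ℕ → ℝ
  | 0 => 0
  | k + 1 => (1 / 32) * (1 / 2) ^ k

omit H [LinearOrder I] [NormedAddCommGroup E] [InnerProductSpace ℝ E] in
lemma et_nonneg (k : ℕ) : 0 ≤ et k := by
  cases k with
  | zero => unfold et; norm_num
  | succ k => unfold et; positivity

omit H [LinearOrder I] [NormedAddCommGroup E] [InnerProductSpace ℝ E] in
lemma hasSum_et : HasSum et (1 / 16) := by
  have h1 : HasSum (fun k : ℕ => et (k + 1)) (1 / 16) := by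
    have h2 : (fun k => et (k + 1)) = fun k : ℕ => (1 / 32 : ℝ) * (1 / 2) ^ k := by
      funext k; rfl
    rw [h2]
    have h3 := hasSum_geometric_of_lt_one (r := (1/2 : ℝ)) (by norm_num) (by norm_num)
    have h4 := h3.mul_left (1 / 32)
    have h5 : (1 / 32 : ℝ) * (1 - 1 / 2)⁻¹ = 1 / 16 := by norm_num
    rw [h5] at h4
    exact h4
  have h6 := (hasSum_nat_add_iff 1).mp h1
  simpa [et] using h6

end step

end FarPt
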