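import Pool.Agent.H33.Far.Step

/-!
# The successor step: gap inequality
-/

open Set Filter Topology

set_option linter.unusedSectionVars false

namespace FarPt

universe u

lemma ps_norm {E : Type u} [NormedAddCommGroup E] [InnerProductSpace ℝ E]
    {N₁ N₂ : ℝ} (h1 : 0 < N₁) (h2 : 0 < N₂) {v₁ v₂ : E}
    (hv1 : ‖N₁⁻¹ • v₁‖ < 2) (hv2 : ‖N₂⁻¹ • v₂‖ < 2) :
    ‖(N₁ + N₂)⁻¹ • (v₁ + v₂)‖ < 2 := by
  have hN : 0 < N₁ + N₂ := by linarith
  set t : ℝ := N₂ / (N₁ + N₂) with ht
  have ht0 : 0 < t := div_pos h2 hN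
  have ht1 : t < 1 := by rw [ht, div_lt_one hN]; linarith
  have e1 : (1 - t) = N₁ / (N₁ + N₂) := by rw [ht]; field_simp; ring
  have hpt : (1 - t) • (N₁⁻¹ • v₁) + t • (N₂⁻¹ • v₂) = (N₁ + N₂)⁻¹ • (v₁ + v₂) := by
    rw [smul_smul, smul_smul, smul_add, e1, ht]
    congr 2
    · field_simp
    · field_simp
  rw [← hpt]
  exact norm_comb_lt hv1 hv2 ht0.le ht1.le

section step

variable {I X E : Type u} [LinearOrder I] [NormedAddCommGroup E] [InnerProductSpace ℝ E]
  {K : CoordSys (I × X) E} {pt : X → E} {B : E → ℝ} {A : Set X} {j : I}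

lemma c_comb (γ : I × X) (x y : E) (t : ℝ) :
    K.c γ ((1 - t) • x + t • y) = (1 - t) * K.c γ x + t * K.c γ y := by
  rw [map_add, map_smul, map_smul, smul_eq_mul, smul_eq_mul]

lemma P_comb (x y : E) (t : ℝ) :
    P K j ((1 - t) • x + t • y) = (1 - t) • P K j x + t • P K j y := by
  rw [map_add, map_smul, map_smul]

lemma den_comb (x y : E) (t : ℝ) :
    8 - ‖(1 - t) • x + t • y‖ ^ 2 =
      (1 - t) * (8 - ‖x‖ ^ 2) + t * (8 - ‖y‖ ^ 2) + t * (1 - t) * ‖x - y‖ ^ 2 := by
  rw [norm_sq_comb]; ring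

lemma mu_comb {x y : E} (hx : ‖x‖ < 2) (hy : ‖y‖ < 2) {t : ℝ} (h0 : 0 ≤ t) (h1 : t ≤ 1)
    (k : ℕ) (a : X) :
    mu K j k a ((1 - t) • x + t • y) ≤ (1 - t) * mu K j k a x + t * mu K j k a y := by
  have hdx := den_pos hx
  have hdy := den_pos hy
  unfold mu
  apply quot_conv' h0 h1 (by linarith) (by linarith) (le_max_right _ _)
  · rw [c_comb]
    apply max_le
    · have e1 := le_max_left (K.c (j, a) x - (1 / 2) ^ k) 0
      have e2 := le_max_left (K.c (j, a) y - (1 / 2) ^ k) 0
      nlinarith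
    · have e1 := le_max_right (K.c (j, a) x - (1 / 2) ^ k) 0
      have e2 := le_max_right (K.c (j, a) y - (1 / 2) ^ k) 0
      have e3 : 0 ≤ 1 - t := by linarith
      positivity
  · rw [den_comb]
    have : 0 ≤ t * (1 - t) * ‖x - y‖ ^ 2 :=
      mul_nonneg (mul_nonneg h0 (by linarith)) (sq_nonneg _)
    linarith

lemma mu_comb_strict {x y : E} (hx : ‖x‖ < 2) (hy : ‖y‖ < 2) (hxy : x ≠ y) {t : ℝ} (h0 : 0 < t)
    (h1 : t < 1) {k : ℕ} {a : X} (hc : (1 / 2) ^ k < K.c (j, a) ((1 - t) • x + t • y)) :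
    mu K j k a ((1 - t) • x + t • y) < (1 - t) * mu K j k a x + t * mu K j k a y := by
  have hdx := den_pos hx
  have hdy := den_pos hy
  have hn : 0 < ‖x - y‖ := norm_pos_iff.mpr (sub_ne_zero.mpr hxy)
  unfold mu
  apply quot_conv_strict h0.le h1.le (by linarith) (by linarith)
  · rw [max_eq_left (by linarith)]
    linarith
  · rw [c_comb]
    apply max_le
    · have e1 := le_max_left (K.c (j, a) x - (1 / 2) ^ k) 0
      have e2 := le_max_left (K.c (j, a) y - (1 / 2) ^ k) 0
      nlinarith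
    · have e1 := le_max_right (K.c (j, a) x - (1 / 2) ^ k) 0
      have e2 := le_max_right (K.c (j, a) y - (1 / 2) ^ k) 0
      have e3 : 0 ≤ 1 - t := by linarith
      positivity
  · rw [den_comb]
    have : 0 < t * (1 - t) * ‖x - y‖ ^ 2 :=
      mul_pos (mul_pos h0 (by linarith)) (by positivity)
    linarith

variable (H : Hyp K pt B A j)
include H

/-- convexity of the elementary functions, with the case of equality -/
lemma ff_comb {x y : E} (hx : ‖x‖ < 2) (hy : ‖y‖ < 2) {t : ℝ} (h0 : 0 < t) (h1 : t < 1)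
    (k : ℕ) {a : X} (ha : a ∈ A) :
    0 ≤ gp (ff K B j (pt a) k a) t x y ∧
    (gp (ff K B j (pt a) k a) t x y = 0 →
      mu K j k a ((1 - t) • x + t • y) < (1 - t) * mu K j k a x + t * mu K j k a y →
      ∃ N : ℝ, ∃ m : ℝ, N = 1 - m ∧ 0 < N ∧
        ‖N⁻¹ • (P K j ((1 - t) • x + t • y) - m • pt a)‖ < 2 ∧
        Flat B (N⁻¹ • (P K j ((1 - t) • x + t • y) - m • pt a)) (pt a)) := by
  have ht1 : 0 < 1 - t := by linarith
  have hz : ‖(1 - t) • x + t • y‖ < 2 := norm_comb_lt hx hy h0.le h1.le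
  have hmx := mu_nonneg K j hx k a
  have hmy := mu_nonneg K j hy k a
  have hmz := mu_nonneg K j hz k a
  have hmx1 := mu_lt K j hx k a
  have hmy1 := mu_lt K j hy k a
  have hmz1 := mu_lt K j hz k a
  have hpx := norm_moved K j hx (H.ptn a ha) k a
  have hpy := norm_moved K j hy (H.ptn a ha) k a
  have hcomb := mu_comb (K := K) (j := j) hx hy h0.le h1.le k a
  have hP := P_comb (K := K) (j := j) x y t
  set z := (1 - t) • x + t • y with hzdef
  set mx := mu K j k a x with hmxdef
  set my := mu K j k a y with hmydef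
  set mz := mu K j k a z with hmzdef
  set q := pt a with hq
  set m : ℝ := (1 - t) * mx + t * my with hm
  have hNx : 0 < 1 - mx := by linarith
  have hNy : 0 < 1 - my := by linarith
  have hm1 : m < 1 / 4 := by
    rw [hm]; nlinarith
  have hN : 0 < 1 - m := by linarith
  have hN1 : 0 < (1 - t) * (1 - mx) := mul_pos ht1 hNx
  have hN2 : 0 < t * (1 - my) := mul_pos h0 hNy
  have eN : (1 - t) * (1 - mx) + t * (1 - my) = 1 - m := by rw [hm]; ring
  have ev : (1 - t) • (P K j x - mx • q) + t • (P K j y - my • q) = P K j z - m • q := by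
    rw [hP, hm]; module
  have hv1 : ‖((1 - t) * (1 - mx))⁻¹ • ((1 - t) • (P K j x - mx • q))‖ < 2 := by
    have : ((1 - t) * (1 - mx))⁻¹ • ((1 - t) • (P K j x - mx • q)) =
        (1 - mx)⁻¹ • (P K j x - mx • q) := by
      rw [smul_smul]
      congr 1
      field_simp
    rw [this]; exact hpx
  have hv2 : ‖(t * (1 - my))⁻¹ • (t • (P K j y - my • q))‖ < 2 := by
    have : (t * (1 - my))⁻¹ • (t • (P K j y - my • q)) =
        (1 - my)⁻¹ • (P K j y - my • q) := by
      rw [smul_smul]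
      congr 1
      field_simp
    rw [this]; exact hpy
  have hsub := (ps_sub H.cvx hN1 hN2 hv1 hv2).1
  have hnorm := ps_norm hN1 hN2 hv1 hv2
  rw [eN, ev] at hsub hnorm
  rw [ps_smul B ht1.ne', ps_smul B h0.ne'] at hsub
  -- the intermediate value
  have hbar : m * B q + ps B (1 - m) (P K j z - m • q) ≤
      (1 - t) * ff K B j q k a x + t * ff K B j q k a y := by
    unfold ff
    rw [← hmxdef, ← hmydef]
    have : m * B q = (1 - t) * (mx * B q) + t * (my * B q) := by rw [hm]; ring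
    linarith
  have hgp : gp (ff K B j q k a) t x y =
      (1 - t) * ff K B j q k a x + t * ff K B j q k a y - ff K B j q k a z := rfl
  rcases eq_or_lt_of_le hcomb with heq | hlt
  · constructor
    · rw [hgp]
      have : ff K B j q k a z = m * B q + ps B (1 - m) (P K j z - m • q) := by
        unfold ff
        rw [← hmzdef, heq]
      linarith
    · intro _ hlt
      exact absurd heq hlt.ne
  · set δ : ℝ := m - mz with hδ
    have hδ0 : 0 < δ := by rw [hδ]; linarith
    have hv3 : ‖δ⁻¹ • (δ • q)‖ < 2 := by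
      rw [smul_smul, inv_mul_cancel₀ hδ0.ne', one_smul]
      linarith [H.ptn a ha]
    have hsub2 := ps_sub H.cvx hN hδ0 hnorm hv3
    have eN2 : 1 - m + δ = 1 - mz := by rw [hδ]; ring
    have ev2 : P K j z - m • q + δ • q = P K j z - mz • q := by rw [hδ]; module
    rw [eN2, ev2] at hsub2
    have e3 : ps B δ (δ • q) = δ * B q := by
      unfold ps
      rw [smul_smul, inv_mul_cancel₀ hδ0.ne', one_smul]
    have e4 : δ⁻¹ • (δ • q) = q := by
      rw [smul_smul, inv_mul_cancel₀ hδ0.ne', one_smul]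
    rw [e3, e4] at hsub2
    have hfz : ff K B j q k a z = mz * B q + ps B (1 - mz) (P K j z - mz • q) := rfl
    have e5 : mz * B q + δ * B q = m * B q := by rw [hδ]; ring
    constructor
    · rw [hgp, hfz]
      have := hsub2.1
      linarith
    · intro h0' _
      refine ⟨1 - m, m, rfl, hN, hnorm, ?_⟩
      apply hsub2.2
      rw [hgp, hfz] at h0'
      have := hsub2.1
      linarith

omit H in
lemma bb_comb (x y : E) {t : ℝ} (h0 : 0 ≤ t) (h1 : t ≤ 1) (a : X) :
    bb K A j a ((1 - t) • x + t • y) ≤ (1 - t) * bb K A j a x + t * bb K A j a y := by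
  have h2 : 0 ≤ 1 - t := by linarith
  unfold bb
  split_ifs
  · rw [c_comb]
    apply max_le
    · have e1 := le_max_left (-(K.c (j, a) x)) 0
      have e2 := le_max_left (-(K.c (j, a) y)) 0
      nlinarith
    · have e1 := le_max_right (-(K.c (j, a) x)) 0
      have e2 := le_max_right (-(K.c (j, a) y)) 0
      positivity
  · rw [c_comb]
    refine (abs_add_le _ _).trans ?_
    rw [abs_mul, abs_mul, abs_of_nonneg h2, abs_of_nonneg h0]

/-- convexity of the bad terms, with the case of equality -/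
lemma T_zero_comb {x y : E} (hx : ‖x‖ < 2) (hy : ‖y‖ < 2) {t : ℝ} (h0 : 0 < t) (h1 : t < 1)
    (a : X) :
    0 ≤ gp (T K pt B A j (a, 0)) t x y ∧
    (x ≠ y → gp (T K pt B A j (a, 0)) t x y = 0 → bb K A j a x = 0 ∧ bb K A j a y = 0) := by
  have hdx := den_pos hx
  have hdy := den_pos hy
  have ht1 : 0 < 1 - t := by linarith
  have hbx : 0 ≤ bb K A j a x := bb_nonneg a x
  have hby : 0 ≤ bb K A j a y := bb_nonneg a y
  have hbz : 0 ≤ bb K A j a ((1 - t) • x + t • y) := bb_nonneg a _
  have hc := bb_comb (K := K) (A := A) (j := j) x y h0.le h1.le a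
  constructor
  · unfold gp
    rw [T_zero, T_zero, T_zero]
    have := quot_conv' h0.le h1.le (d₁ := 8 - ‖x‖ ^ 2) (d₂ := 8 - ‖y‖ ^ 2)
      (d := 8 - ‖(1 - t) • x + t • y‖ ^ 2) (by linarith) (by linarith) hbz hc (by
        rw [den_comb]
        have : 0 ≤ t * (1 - t) * ‖x - y‖ ^ 2 := by positivity
        linarith)
    linarith
  · intro hxy hzero
    have hn : 0 < ‖x - y‖ := norm_pos_iff.mpr (sub_ne_zero.mpr hxy)
    unfold gp at hzero
    rw [T_zero, T_zero, T_zero] at hzero
    have hbz0 : bb K A j a ((1 - t) • x + t • y) = 0 := by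
      by_contra hne
      have hpos : 0 < bb K A j a ((1 - t) • x + t • y) := lt_of_le_of_ne hbz (Ne.symm hne)
      have := quot_conv_strict h0.le h1.le (d₁ := 8 - ‖x‖ ^ 2) (d₂ := 8 - ‖y‖ ^ 2)
        (d := 8 - ‖(1 - t) • x + t • y‖ ^ 2) (by linarith) (by linarith) hpos hc (by
          rw [den_comb]
          have : 0 < t * (1 - t) * ‖x - y‖ ^ 2 := by positivity
          linarith)
      linarith
    rw [hbz0] at hzero
    have e1 : 0 ≤ bb K A j a x ^ 2 / (8 - ‖x‖ ^ 2) := div_nonneg (sq_nonneg _) (by linarith)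
    have e2 : 0 ≤ bb K A j a y ^ 2 / (8 - ‖y‖ ^ 2) := div_nonneg (sq_nonneg _) (by linarith)
    have e3 : (1 - t) * (bb K A j a x ^ 2 / (8 - ‖x‖ ^ 2)) +
        t * (bb K A j a y ^ 2 / (8 - ‖y‖ ^ 2)) = 0 := by
      simp only [ne_eq, OfNat.ofNat_ne_zero, not_false_eq_true, zero_pow, zero_div,
        sub_zero] at hzero
      exact hzero
    have e4 : bb K A j a x ^ 2 / (8 - ‖x‖ ^ 2) = 0 := by
      by_contra hne
      have : 0 < (1 - t) * (bb K A j a x ^ 2 / (8 - ‖x‖ ^ 2)) :=
        mul_pos ht1 (lt_of_le_of_ne e1 (Ne.symm hne))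
      have h5 : 0 ≤ t * (bb K A j a y ^ 2 / (8 - ‖y‖ ^ 2)) := mul_nonneg h0.le e2
      linarith
    have e5 : bb K A j a y ^ 2 / (8 - ‖y‖ ^ 2) = 0 := by
      rw [e4, mul_zero, zero_add] at e3
      rcases mul_eq_zero.mp e3 with h | h
      · exact absurd h h0.ne'
      · exact h
    constructor
    · rcases div_eq_zero_iff.mp e4 with h | h
      · exact pow_eq_zero_iff (two_ne_zero) |>.mp h
      · linarith
    · rcases div_eq_zero_iff.mp e5 with h | h
      · exact pow_eq_zero_iff (two_ne_zero) |>.mp h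
      · linarith

/-- lower bound for the gap of a term -/
lemma T_gap_ge {x y : E} (hx : ‖x‖ < 2) (hy : ‖y‖ < 2) {t : ℝ} (h0 : 0 < t) (h1 : t < 1)
    (p : X × ℕ) :
    0 ≤ gp (T K pt B A j p) t x y +
      ((K.c (j, p.1) x) ^ 2 + (K.c (j, p.1) y) ^ 2) * (et p.2 * gp B t (P K j x) (P K j y)) := by
  have hgB : 0 ≤ gp B t (P K j x) (P K j y) :=
    H.cvx _ _ (B_norm_P H hx) (B_norm_P H hy) t h0.le h1.le
  have ht1 : 0 < 1 - t := by linarith
  obtain ⟨a, k⟩ := p
  cases k with
  | zero =>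
    have h2 := (T_zero_comb H hx hy h0 h1 a).1
    have h3 : et 0 = 0 := rfl
    simp only [h3, zero_mul, mul_zero, add_zero]
    exact h2
  | succ k =>
    simp only
    by_cases ha : a ∈ A
    · have hgT : gp (T K pt B A j (a, k + 1)) t x y =
          ww k * (gp (ff K B j (pt a) k a) t x y - gp B t (P K j x) (P K j y)) := by
        unfold gp
        rw [T_succ_mem ha, T_succ_mem ha, T_succ_mem ha, P_comb]
        ring
      rw [hgT]
      have hff := (ff_comb H hx hy h0 h1 k ha).1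
      by_cases hact : K.c (j, a) x ≤ (1 / 2) ^ k ∧ K.c (j, a) y ≤ (1 / 2) ^ k
      · have hz : K.c (j, a) ((1 - t) • x + t • y) ≤ (1 / 2) ^ k := by
          rw [c_comb]
          nlinarith [hact.1, hact.2]
        have e1 : gp (ff K B j (pt a) k a) t x y = gp B t (P K j x) (P K j y) := by
          unfold gp
          rw [ff_inactive H hact.1, ff_inactive H hact.2, ff_inactive H hz, P_comb]
        rw [e1, sub_self, mul_zero, zero_add]
        have := et_nonneg (k + 1)
        positivity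
      · have hone : 1 ≤ 4 ^ k * ((K.c (j, a) x) ^ 2 + (K.c (j, a) y) ^ 2) := by
          rw [not_and_or, not_le, not_le] at hact
          rcases hact with h | h
          · have := four_pow_mul h
            have h4 : (0:ℝ) ≤ 4 ^ k * (K.c (j, a) y) ^ 2 := by positivity
            linarith
          · have := four_pow_mul h
            have h4 : (0:ℝ) ≤ 4 ^ k * (K.c (j, a) x) ^ 2 := by positivity
            linarith
        have hw := ww_pos k
        have hew : et (k + 1) = ww k * 4 ^ k := by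
          unfold et ww
          rw [mul_assoc, ← mul_pow]
          norm_num
        rw [hew]
        have h5 : 0 ≤ ww k * gp (ff K B j (pt a) k a) t x y := mul_nonneg hw.le hff
        have h6 : ww k * gp B t (P K j x) (P K j y) ≤
            (4 ^ k * ((K.c (j, a) x) ^ 2 + (K.c (j, a) y) ^ 2)) *
              (ww k * gp B t (P K j x) (P K j y)) :=
          le_mul_of_one_le_left (mul_nonneg hw.le hgB) hone
        linarith
    · have hgT : gp (T K pt B A j (a, k + 1)) t x y = 0 := by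
        unfold gp
        rw [T_succ_notMem ha, T_succ_notMem ha, T_succ_notMem ha]
        ring
      rw [hgT, zero_add]
      have := et_nonneg (k + 1)
      positivity

/-- exact form of the gap of the step function -/
lemma stepf_gap_hasSum {x y : E} (hx : ‖x‖ < 2) (hy : ‖y‖ < 2) {t : ℝ} (h0 : 0 ≤ t)
    (h1 : t ≤ 1) :
    HasSum (fun p : X × ℕ => gp (T K pt B A j p) t x y)
      (gp (stepf K pt B A j) t x y - gp B t (P K j x) (P K j y)) := by
  have hz : ‖(1 - t) • x + t • y‖ < 2 := norm_comb_lt hx hy h0 h1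
  have s1 := (summable_T H hx).hasSum.mul_left (1 - t)
  have s2 := (summable_T H hy).hasSum.mul_left t
  have s3 := (summable_T H hz).hasSum
  have s4 := (s1.add s2).sub s3
  have e1 : gp (stepf K pt B A j) t x y - gp B t (P K j x) (P K j y) =
      (1 - t) * ∑' p : X × ℕ, T K pt B A j p x + t * ∑' p : X × ℕ, T K pt B A j p y -
      ∑' p : X × ℕ, T K pt B A j p ((1 - t) • x + t • y) := by
    unfold gp stepf
    rw [P_comb]
    ring
  rw [e1]
  exact s4

/-- the sum of the squares of the block coordinates -/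
lemma stepf_gap {x y : E} (hx : ‖x‖ < 2) (hy : ‖y‖ < 2) {t : ℝ} (h0 : 0 < t) (h1 : t < 1) :
    HasSum (fun p : X × ℕ => gp (T K pt B A j p) t x y +
      ((K.c (j, p.1) x) ^ 2 + (K.c (j, p.1) y) ^ 2) * (et p.2 * gp B t (P K j x) (P K j y)))
      (gp (stepf K pt B A j) t x y - gp B t (P K j x) (P K j y) +
        ((‖Pp K j x‖ ^ 2 - ‖P K j x‖ ^ 2) + (‖Pp K j y‖ ^ 2 - ‖P K j y‖ ^ 2)) *
          (1 / 16 * gp B t (P K j x) (P K j y))) := by
  apply (stepf_gap_hasSum H hx hy h0.le h1.le).add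
  have hgB : 0 ≤ gp B t (P K j x) (P K j y) :=
    H.cvx _ _ (B_norm_P H hx) (B_norm_P H hy) t h0.le h1.le
  have s1 := (hasSum_block K j x).add (hasSum_block K j y)
  have s2 := hasSum_et.mul_right (gp B t (P K j x) (P K j y))
  have s3 : Summable (fun p : X × ℕ => ((K.c (j, p.1) x) ^ 2 + (K.c (j, p.1) y) ^ 2) *
      (et p.2 * gp B t (P K j x) (P K j y))) :=
    Summable.mul_of_nonneg s1.summable s2.summable (fun a => by positivity)
      (fun k => mul_nonneg (et_nonneg k) hgB)
  exact s1.mul s2 s3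

lemma block_lt {x : E} (hx : ‖x‖ < 2) : ‖Pp K j x‖ ^ 2 - ‖P K j x‖ ^ 2 < 4 := by
  have h1 := norm_Pp_le K j x
  have h2 := norm_nonneg (Pp K j x)
  have h3 := sq_nonneg ‖P K j x‖
  nlinarith

omit H in
lemma block_nonneg (x : E) : 0 ≤ ‖Pp K j x‖ ^ 2 - ‖P K j x‖ ^ 2 :=
  (hasSum_block K j x).nonneg (fun _ => sq_nonneg _)

/-- the relative gap inequality -/
lemma stepf_gap_ge {x y : E} (hx : ‖x‖ < 2) (hy : ‖y‖ < 2) {t : ℝ} (h0 : 0 ≤ t) (h1 : t ≤ 1) :
    (1 - ((‖Pp K j x‖ ^ 2 - ‖P K j x‖ ^ 2) + (‖Pp K j y‖ ^ 2 - ‖P K j y‖ ^ 2)) / 16) *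
      gp B t (P K j x) (P K j y) ≤ gp (stepf K pt B A j) t x y := by
  rcases eq_or_lt_of_le h0 with h | h
  · rw [← h, gp_zero_left, gp_zero_left, mul_zero]
  rcases eq_or_lt_of_le h1 with h' | h'
  · rw [h', gp_one_left, gp_one_left, mul_zero]
  have h2 := (stepf_gap H hx hy h h').nonneg (fun p => T_gap_ge H hx hy h h' p)
  linarith

lemma stepf_cvx : Cvx (stepf K pt B A j) := by
  intro x y hx hy t h0 h1
  have h2 := stepf_gap_ge H hx hy h0 h1
  have hgB : 0 ≤ gp B t (P K j x) (P K j y) :=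
    H.cvx _ _ (B_norm_P H hx) (B_norm_P H hy) t h0 h1
  have h3 := block_lt H hx
  have h4 := block_lt H hy
  refine le_trans (mul_nonneg ?_ hgB) h2
  linarith

/-- upper bound -/
lemma stepf_le {x : E} (hx : ‖x‖ < 2) : stepf K pt B A j x ≤ -1 + ‖Pp K j x‖ ^ 2 := by
  set α : ℝ := -1 + ‖P K j x‖ ^ 2 - B (P K j x) with hα
  have hub := H.ub (P K j x) (B_norm_P H hx)
  rw [P_P] at hub
  have hα0 : 0 ≤ α := by rw [hα]; linarith
  have hterm : ∀ p : X × ℕ, T K pt B A j p x ≤
      (K.c (j, p.1) x) ^ 2 * (et p.2 * (α + 3 / 4) + if p.2 = 0 then 1 / 4 else 0) := by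
    rintro ⟨a, k⟩
    cases k with
    | zero =>
      rw [T_zero]
      have h3 : et 0 = 0 := rfl
      simp only [h3, zero_mul, zero_add, if_true]
      have hd := den_pos hx
      have h1 := bb_sq_le (K := K) (A := A) (j := j) a x
      rw [div_le_iff₀ (by linarith)]
      have h2 := sq_nonneg (K.c (j, a) x)
      nlinarith
    | succ k =>
      simp only [Nat.add_eq_zero_iff, one_ne_zero, and_false, if_false, add_zero]
      by_cases ha : a ∈ A
      · rw [T_succ_mem ha]
        rcases le_or_gt (K.c (j, a) x) ((1 / 2) ^ k) with h1 | h1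
        · rw [ff_inactive H h1, sub_self, mul_zero]
          have := et_nonneg (k + 1)
          positivity
        · have h2 := ff_le H hx ha k
          have h3 := four_pow_mul h1
          have h4 := mu_le K j hx k a
          have h5 := ww_pos k
          have hew : et (k + 1) = ww k * 4 ^ k := by
            unfold et ww
            rw [mul_assoc, ← mul_pow]
            norm_num
          have h6 : (1 : ℝ) ≤ 4 ^ k := one_le_pow₀ (by norm_num)
          have h7 : ff K B j (pt a) k a x - B (P K j x) ≤ α + 3 / 4 * (K.c (j, a) x) ^ 2 := by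
            rw [hα]; linarith
          have h8 : α ≤ 4 ^ k * (K.c (j, a) x) ^ 2 * α := le_mul_of_one_le_left hα0 h3
          have h9 : 3 / 4 * (K.c (j, a) x) ^ 2 ≤ 4 ^ k * (K.c (j, a) x) ^ 2 * (3 / 4) := by
            have : (K.c (j, a) x) ^ 2 ≤ 4 ^ k * (K.c (j, a) x) ^ 2 :=
              le_mul_of_one_le_left (sq_nonneg _) h6
            linarith
          calc ww k * (ff K B j (pt a) k a x - B (P K j x)) ≤
                ww k * (4 ^ k * (K.c (j, a) x) ^ 2 * (α + 3 / 4)) := by
                apply mul_le_mul_of_nonneg_left _ h5.le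
                linarith
            _ = _ := by rw [hew]; ring
      · rw [T_succ_notMem ha]
        have := et_nonneg (k + 1)
        positivity
  have s1 := hasSum_block K j x
  have s2 : HasSum (fun k : ℕ => et k * (α + 3 / 4) + if k = 0 then (1 / 4 : ℝ) else 0)
      (1 / 16 * (α + 3 / 4) + 1 / 4) :=
    (hasSum_et.mul_right (α + 3 / 4)).add (hasSum_ite_eq 0 (1 / 4 : ℝ))
  have s3 : Summable (fun p : X × ℕ => (K.c (j, p.1) x) ^ 2 *
      (et p.2 * (α + 3 / 4) + if p.2 = 0 then 1 / 4 else 0)) := by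
    apply Summable.mul_of_nonneg s1.summable s2.summable (fun a => sq_nonneg _)
    intro k
    have := et_nonneg k
    simp only
    split_ifs <;> positivity
  have s4 := s1.mul s2 s3
  have h1 := hasSum_le hterm (summable_T H hx).hasSum s4
  unfold stepf
  have h2 := block_lt H hx
  have h3 := block_nonneg (K := K) (j := j) x
  set S := ‖Pp K j x‖ ^ 2 - ‖P K j x‖ ^ 2 with hS
  have h4 : ‖Pp K j x‖ ^ 2 = ‖P K j x‖ ^ 2 + S := by rw [hS]; ring
  rw [h4]
  have h5 : S * α ≤ 4 * α := by nlinarith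
  have h6 : B (P K j x) + α = -1 + ‖P K j x‖ ^ 2 := by rw [hα]; ring
  nlinarith

end step

end FarPt
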