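import Pool.Agent.H33.Far.Step2

/-!
# The successor step: flat segments and values on rays
-/

open Set Filter Topology

set_option linter.unusedSectionVars false

namespace FarPt

universe u

section step

variable {I X E : Type u} [LinearOrder I] [NormedAddCommGroup E] [InnerProductSpace ℝ E]
  {K : CoordSys (I × X) E} {pt : X → E} {B : E → ℝ} {A : Set X} {j : I}

lemma exists_pow_lt' {c : ℝ} (hc : 0 < c) : ∃ k : ℕ, (1 / 2 : ℝ) ^ k < c :=
  exists_pow_lt_of_lt_one hc (by norm_num)

variable (H : Hyp K pt B A j)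
include H

/-- vanishing gap of the step function forces vanishing gap of every part -/
lemma flat_parts {x y : E} (hx : ‖x‖ < 2) (hy : ‖y‖ < 2) {t : ℝ} (h0 : 0 < t) (h1 : t < 1)
    (hz : gp (stepf K pt B A j) t x y = 0) :
    gp B t (P K j x) (P K j y) = 0 ∧ ∀ p, gp (T K pt B A j p) t x y = 0 := by
  have hgB : 0 ≤ gp B t (P K j x) (P K j y) :=
    H.cvx _ _ (B_norm_P H hx) (B_norm_P H hy) t h0.le h1.le
  have hsum := stepf_gap H hx hy h0 h1
  have hnn := fun p => T_gap_ge H hx hy h0 h1 p
  have h3 := block_lt H hx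
  have h4 := block_lt H hy
  have htot := hsum.nonneg hnn
  rw [hz] at htot hsum
  have hB0 : gp B t (P K j x) (P K j y) = 0 := by
    apply le_antisymm _ hgB
    by_contra hcon
    push Not at hcon
    nlinarith
  refine ⟨hB0, ?_⟩
  rw [hB0] at hsum hnn
  simp only [mul_zero, add_zero, sub_zero] at hsum hnn
  have := (hasSum_zero_iff_of_nonneg hnn).mp hsum
  intro p
  exact congrFun this p

/-- a positive coordinate forces the base point -/
lemma flat_base {x y : E} (hx : ‖x‖ < 2) (hy : ‖y‖ < 2) (hxy : x ≠ y)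
    (hF : ∀ a ∈ A, ∀ u : E, P K j u = u → ‖u‖ < 2 → u ≠ pt a → ¬ Flat B u (pt a))
    {t : ℝ} (h0 : 0 < t) (h1 : t < 1)
    (hz : gp (stepf K pt B A j) t x y = 0) {a : X} (ha : a ∈ A)
    (hc : 0 < K.c (j, a) ((1 - t) • x + t • y)) :
    P K j ((1 - t) • x + t • y) = pt a := by
  obtain ⟨k, hk⟩ := exists_pow_lt' hc
  obtain ⟨hB0, hT0⟩ := flat_parts H hx hy h0 h1 hz
  have hgT : gp (T K pt B A j (a, k + 1)) t x y =
      ww k * (gp (ff K B j (pt a) k a) t x y - gp B t (P K j x) (P K j y)) := by
    unfold gp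
    rw [T_succ_mem ha, T_succ_mem ha, T_succ_mem ha, P_comb]
    ring
  rw [hT0, hB0, sub_zero] at hgT
  have hff0 : gp (ff K B j (pt a) k a) t x y = 0 := by
    rcases mul_eq_zero.mp hgT.symm with h | h
    · exact absurd h (ww_pos k).ne'
    · exact h
  obtain ⟨N, m, hNm, hN, hnorm, hflat⟩ := (ff_comb H hx hy h0 h1 k ha).2 hff0
    (mu_comb_strict hx hy hxy h0 h1 hk)
  set z := (1 - t) • x + t • y with hzdef
  by_contra hne
  apply hF a ha (N⁻¹ • (P K j z - m • pt a)) _ hnorm _ hflat
  · rw [map_smul, map_sub, map_smul, P_P, H.ptP a ha]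
  · intro heq
    apply hne
    have h2 : P K j z - m • pt a = N • pt a := by
      have h5 : N • (N⁻¹ • (P K j z - m • pt a)) = P K j z - m • pt a := by
        rw [smul_smul, mul_inv_cancel₀ hN.ne', one_smul]
      rw [heq] at h5
      exact h5.symm
    have h3 : P K j z = N • pt a + m • pt a := by rw [← h2]; abel
    rw [h3, hNm]
    module

/-- flat segments of the step function -/
lemma flat_step {x y : E} (hx : ‖x‖ < 2) (hy : ‖y‖ < 2) (hxy : x ≠ y)
    (hPx : Pp K j x = x) (hPy : Pp K j y = y)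
    (hF : ∀ a ∈ A, ∀ u : E, P K j u = u → ‖u‖ < 2 → u ≠ pt a → ¬ Flat B u (pt a))
    (hinj : ∀ a ∈ A, ∀ a' ∈ A, pt a = pt a' → a = a')
    (hflat : Flat (stepf K pt B A j) x y) :
    (P K j x = x ∧ P K j y = y ∧ Flat B x y) ∨
    ∃ a ∈ A, ∃ s t : ℝ, 0 ≤ s ∧ 0 ≤ t ∧ x = pt a + s • K.e (j, a) ∧ y = pt a + t • K.e (j, a) := by
  have hbb : ∀ a, bb K A j a x = 0 ∧ bb K A j a y = 0 := by
    intro a
    have h1 := (flat_parts H hx hy (t := 1 / 2) (by norm_num) (by norm_num)
      (hflat _ (by norm_num) (by norm_num))).2 (a, 0)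
    exact (T_zero_comb H hx hy (t := 1 / 2) (by norm_num) (by norm_num) a).2 hxy h1
  have hcA : ∀ a ∈ A, 0 ≤ K.c (j, a) x ∧ 0 ≤ K.c (j, a) y := by
    intro a ha
    obtain ⟨h1, h2⟩ := hbb a
    unfold bb at h1 h2
    rw [if_pos ha] at h1 h2
    constructor
    · have := le_max_left (-(K.c (j, a) x)) 0
      linarith
    · have := le_max_left (-(K.c (j, a) y)) 0
      linarith
  have hcN : ∀ a, a ∉ A → K.c (j, a) x = 0 ∧ K.c (j, a) y = 0 := by
    intro a ha
    obtain ⟨h1, h2⟩ := hbb a
    unfold bb at h1 h2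
    rw [if_neg ha] at h1 h2
    exact ⟨abs_eq_zero.mp h1, abs_eq_zero.mp h2⟩
  have hbase : ∀ a ∈ A, (0 < K.c (j, a) x ∨ 0 < K.c (j, a) y) → P K j x = pt a ∧ P K j y = pt a := by
    intro a ha hpos
    obtain ⟨hx0, hy0⟩ := hcA a ha
    have hposz : ∀ t : ℝ, 0 < t → t < 1 → 0 < K.c (j, a) ((1 - t) • x + t • y) := by
      intro t h0 h1
      rw [c_comb]
      have h2 : 0 < 1 - t := by linarith
      rcases hpos with h | h
      · have := mul_pos h2 h
        have := mul_nonneg h0.le hy0
        linarith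
      · have := mul_pos h0 h
        have := mul_nonneg h2.le hx0
        linarith
    have e1 := flat_base H hx hy hxy hF (t := 1 / 3) (by norm_num) (by norm_num)
      (hflat _ (by norm_num) (by norm_num)) ha (hposz _ (by norm_num) (by norm_num))
    have e2 := flat_base H hx hy hxy hF (t := 2 / 3) (by norm_num) (by norm_num)
      (hflat _ (by norm_num) (by norm_num)) ha (hposz _ (by norm_num) (by norm_num))
    rw [P_comb] at e1 e2
    constructor
    · have h3 : P K j x = (2 : ℝ) • ((1 - (1 / 3 : ℝ)) • P K j x + (1 / 3 : ℝ) • P K j y) -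
          (1 : ℝ) • ((1 - (2 / 3 : ℝ)) • P K j x + (2 / 3 : ℝ) • P K j y) := by module
      rw [h3, e1, e2]
      module
    · have h3 : P K j y = (2 : ℝ) • ((1 - (2 / 3 : ℝ)) • P K j x + (2 / 3 : ℝ) • P K j y) -
          (1 : ℝ) • ((1 - (1 / 3 : ℝ)) • P K j x + (1 / 3 : ℝ) • P K j y) := by module
      rw [h3, e1, e2]
      module
  by_cases hall : ∀ a ∈ A, K.c (j, a) x = 0 ∧ K.c (j, a) y = 0
  · left
    have hzero : ∀ a, K.c (j, a) x = 0 ∧ K.c (j, a) y = 0 := by
      intro a
      by_cases ha : a ∈ A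
      · exact hall a ha
      · exact hcN a ha
    have hPx' : P K j x = x := by
      apply K.ext
      rintro ⟨i, a⟩
      rcases lt_trichotomy i j with h | h | h
      · exact P_c K j (γ := (i, a)) h x
      · subst h
        rw [P_c_not K i (γ := (i, a)) (lt_irrefl _), (hzero a).1]
      · rw [P_c_not K j (γ := (i, a)) (not_lt.mpr h.le), ← hPx,
          Pp_c_not K j (γ := (i, a)) (not_le.mpr h)]
    have hPy' : P K j y = y := by
      apply K.ext
      rintro ⟨i, a⟩
      rcases lt_trichotomy i j with h | h | h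
      · exact P_c K j (γ := (i, a)) h y
      · subst h
        rw [P_c_not K i (γ := (i, a)) (lt_irrefl _), (hzero a).2]
      · rw [P_c_not K j (γ := (i, a)) (not_lt.mpr h.le), ← hPy,
          Pp_c_not K j (γ := (i, a)) (not_le.mpr h)]
    refine ⟨hPx', hPy', ?_⟩
    intro t h0 h1
    rcases eq_or_lt_of_le h0 with h | h
    · rw [← h, gp_zero_left]
    rcases eq_or_lt_of_le h1 with h' | h'
    · rw [h', gp_one_left]
    have := (flat_parts H hx hy h h' (hflat t h0 h1)).1
    rw [hPx', hPy'] at this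
    exact this
  · right
    push Not at hall
    obtain ⟨a, ha, hne⟩ := hall
    obtain ⟨hx0, hy0⟩ := hcA a ha
    have hpos : 0 < K.c (j, a) x ∨ 0 < K.c (j, a) y := by
      by_cases h : K.c (j, a) x = 0
      · right
        exact lt_of_le_of_ne hy0 (Ne.symm (hne h))
      · left
        exact lt_of_le_of_ne hx0 (Ne.symm h)
    obtain ⟨hbx, hby⟩ := hbase a ha hpos
    have hother : ∀ b, b ≠ a → K.c (j, b) x = 0 ∧ K.c (j, b) y = 0 := by
      intro b hb
      by_cases hbA : b ∈ A
      · obtain ⟨hx1, hy1⟩ := hcA b hbA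
        by_contra hcon
        have hpos' : 0 < K.c (j, b) x ∨ 0 < K.c (j, b) y := by
          by_cases h : K.c (j, b) x = 0
          · right
            exact lt_of_le_of_ne hy1 (fun h' => hcon ⟨h, h'.symm⟩)
          · left
            exact lt_of_le_of_ne hx1 (Ne.symm h)
        have h2 := (hbase b hbA hpos').1
        apply hb
        apply hinj b hbA a ha
        rw [← h2, hbx]
      · exact hcN b hbA
    have hca : ∀ u : E, Pp K j u = u → P K j u = pt a → (∀ b, b ≠ a → K.c (j, b) u = 0) →
        u = pt a + K.c (j, a) u • K.e (j, a) := by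
      intro u hu hPu hub
      apply K.ext
      rintro ⟨i, b⟩
      rw [map_add, map_smul, smul_eq_mul]
      rcases lt_trichotomy i j with h | h | h
      · rw [K.c_e_ne _ _ (by intro h'; rw [Prod.mk.injEq] at h'; exact h.ne h'.1), mul_zero,
          add_zero, ← hPu, P_c K j (γ := (i, b)) h u]
      · subst h
        have h2 : K.c (i, b) (pt a) = 0 := by
          rw [← H.ptP a ha, P_c_not K i (γ := (i, b)) (lt_irrefl _)]
        rw [h2, zero_add]
        by_cases hb : b = a
        · subst hb
          rw [K.c_e_self, mul_one]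
        · rw [hub b hb, K.c_e_ne _ _ (by intro h'; rw [Prod.mk.injEq] at h'; exact hb h'.2),
            mul_zero]
      · rw [K.c_e_ne _ _ (by intro h'; rw [Prod.mk.injEq] at h'; exact h.ne' h'.1), mul_zero,
          add_zero, ← H.ptP a ha, P_c_not K j (γ := (i, b)) (not_lt.mpr h.le), ← hu,
          Pp_c_not K j (γ := (i, b)) (not_le.mpr h)]
    exact ⟨a, ha, K.c (j, a) x, K.c (j, a) y, hx0, hy0, hca x hPx hbx (fun b hb => (hother b hb).1),
      hca y hPy hby (fun b hb => (hother b hb).2)⟩

omit H in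
lemma P_e (a : X) : P K j (K.e (j, a)) = 0 := K.R_e_notMem (by simp)

omit H in
lemma Pp_e (a : X) : Pp K j (K.e (j, a)) = K.e (j, a) := K.R_e_mem (by simp)

/-- values of the step function on the lines through the base points -/
lemma stepf_line {a : X} (ha : a ∈ A) (t : ℝ) (hn : ‖pt a + t • K.e (j, a)‖ < 2) :
    stepf K pt B A j (pt a + t • K.e (j, a)) =
      B (pt a) + (max (-t) 0) ^ 2 / (8 - ‖pt a + t • K.e (j, a)‖ ^ 2) := by
  have hP : P K j (pt a + t • K.e (j, a)) = pt a := by
    rw [map_add, map_smul, P_e, smul_zero, add_zero, H.ptP a ha]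
  have hptc : ∀ b, K.c (j, b) (pt a) = 0 := by
    intro b
    rw [← H.ptP a ha, P_c_not K j (γ := (j, b)) (lt_irrefl _)]
  have hca : K.c (j, a) (pt a + t • K.e (j, a)) = t := by
    rw [map_add, map_smul, hptc, K.c_e_self, smul_eq_mul, mul_one, zero_add]
  have hcb : ∀ b, b ≠ a → K.c (j, b) (pt a + t • K.e (j, a)) = 0 := by
    intro b hb
    rw [map_add, map_smul, hptc, K.c_e_ne _ _ (by
      intro h'; rw [Prod.mk.injEq] at h'; exact hb h'.2), smul_zero, add_zero]
  unfold stepf
  rw [hP, tsum_eq_single (a, 0)]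
  · rw [T_zero]
    unfold bb
    rw [if_pos ha, hca]
  · rintro ⟨b, k⟩ hne
    by_cases hb : b = a
    · subst hb
      cases k with
      | zero => exact absurd rfl hne
      | succ k =>
        rw [T_succ_mem ha, hP]
        unfold ff ps
        rw [hP]
        have h1 := mu_lt K j hn k b
        set m := mu K j k b (pt b + t • K.e (j, b)) with hm
        have hpos : 0 < 1 - m := by linarith
        have e1 : pt b - m • pt b = (1 - m) • pt b := by module
        rw [e1, smul_smul, inv_mul_cancel₀ hpos.ne', one_smul]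
        ring
    · cases k with
      | zero =>
        rw [T_zero]
        unfold bb
        rw [hcb b hb]
        split_ifs <;> simp
      | succ k =>
        by_cases hbA : b ∈ A
        · rw [T_succ_mem hbA, ff_inactive H (by rw [hcb b hb]; positivity), sub_self, mul_zero]
        · rw [T_succ_notMem hbA]

/-- the step function extends the old one -/
lemma stepf_of_P {x : E} (hx : ‖x‖ < 2) (hPx : P K j x = x) : stepf K pt B A j x = B x := by
  unfold stepf
  rw [hPx]
  have : ∀ p : X × ℕ, T K pt B A j p x = 0 := by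
    intro p
    apply le_antisymm _ (T_nonneg H hx p)
    refine (T_le H hx p).trans ?_
    have : K.c (j, p.1) x = 0 := by
      rw [← hPx, P_c_not K j (γ := (j, p.1)) (lt_irrefl _)]
    rw [this]
    simp
  rw [tsum_congr this, tsum_zero, add_zero]

end step

end FarPt
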